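import Mathlib
import Pool.Agent.N753.DR.Stm

/-!
# Elliptic curves over the fields generated by the points of degree `r` (project FR): statements

`E` is the exceptional set of project DR (`Pool.Agent.N753.DR.StmKE`).
-/

set_option autoImplicit false

namespace Pool.Agent.N751.FR

open NumberField IsDedekindDomain Module Polynomial Pool.Agent.N753.DR

/-- the property of the exceptional set of `StmKE` -/
def IsExc (K : Type) [Field K] [NumberField K] (r : ℕ) (E : Set K[X]) : Prop :=
  ∀ (S : Finset ℕ) (F : K[X]), F.Monic → Irreducible F → F.natDegree ≤ 2 * r + 1 →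
    ∀ κ : ℝ, 0 < κ → ∃ C : ℝ, ∀ (M : Type) [Field M] [NumberField M] [Algebra K M] (x : M),
      finrank K M = r → (minpoly K x).natDegree = r → minpoly K x ∉ E →
      ∀ W : Finset (HeightOneSpectrum (𝓞 M)), (∀ w, Near S F x w → w ∈ W) →
        (F.natDegree - κ) * Height.logHeight₁ x ≤ ∑ w ∈ W, lN w + C

/-- `P` has a simple zero at `x` modulo `w` -/
def Simple {K M : Type} [Field K] [Field M] [NumberField M] [Algebra K M] (S : Finset ℕ)
    (P : K[X]) (x : M) (w : HeightOneSpectrum (𝓞 M)) : Prop :=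
  (∀ p ∈ S, p ≠ 0 → (p : 𝓞 M) ∉ w.asIdeal) ∧ w.valuation M x ≤ 1 ∧
    w.valuation M (aeval x P) = WithZero.exp (-1 : ℤ)

/-- **FR/SIM** simple zeros of several polynomials -/
def StmSim : Prop := ∀ (K : Type) [Field K] [NumberField K] (r : ℕ), 1 ≤ r → ∀ E : Set K[X],
  IsExc K r E → ∀ (PP : Finset K[X]), (∀ P ∈ PP, P.Monic ∧ Irreducible P ∧
    P.natDegree ≤ 2 * r + 1) → ∀ (S : Finset ℕ) (κ : ℝ), 0 < κ → ∃ C : ℝ,
  ∀ (M : Type) [Field M] [NumberField M] [Algebra K M] (x : M),
    finrank K M = r → (minpoly K x).natDegree = r → minpoly K x ∉ E →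
    ∀ W : Finset (HeightOneSpectrum (𝓞 M)), (∀ w, (∃ P ∈ PP, Simple S P x w) → w ∈ W) →
      ((∑ P ∈ PP, P.natDegree : ℕ) - κ) * Height.logHeight₁ x ≤ ∑ w ∈ W, lN w + C

/-- **FR/HT** the height of the value of a rational function, uniformly in the field -/
def StmHt : Prop := ∀ (K : Type) [Field K] [NumberField K] (A B : K[X]), IsCoprime A B →
  ∀ r : ℕ, ∃ C : ℝ, ∀ (M : Type) [Field M] [NumberField M] [Algebra K M] (x : M),
    finrank K M = r → aeval x B ≠ 0 →
    Height.logHeight₁ (aeval x A / aeval x B) ≤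
      (max A.natDegree B.natDegree : ℕ) * Height.logHeight₁ x + C ∧
    (max A.natDegree B.natDegree : ℕ) * Height.logHeight₁ x ≤
      Height.logHeight₁ (aeval x A / aeval x B) + C

open Classical in
/-- the bad places (different from infinity) of a one-parameter family of elliptic curves with
`j = A / B`: the poles of `j`, the zeros of `j` of order not divisible by three, the zeros of
`j - 1728` of odd order -/
noncomputable def badPl {K : Type} [Field K] (A B : K[X]) : Finset K[X] :=
  (UniqueFactorizationMonoid.normalizedFactors (A * (A - 1728 * B) * B)).toFinset.filter fun P =>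
    P ∣ B ∨ ¬ 3 ∣ multiplicity P A ∨ ¬ 2 ∣ multiplicity P (A - 1728 * B)

/-- **FR/RH** the degree of `j` and the number of the bad places (Mason-Stothers) -/
def StmRH : Prop := ∀ (K : Type) [Field K] [CharZero K] (A B : K[X]), IsCoprime A B → B ≠ 0 →
  1 ≤ max A.natDegree B.natDegree →
  max A.natDegree B.natDegree + 6 ≤ 6 * ∑ P ∈ badPl A B, P.natDegree

/-- **FR/TOT** there are many numbers of degree `r` -/
def StmTot : Prop := ∀ (K : Type) [Field K] [NumberField K] (r : ℕ), 1 ≤ r →
  ∃ c U₀ : ℝ, 0 < c ∧ ∀ U : ℝ, U₀ ≤ U → ∃ T : Finset K[X], (∀ p ∈ T, AtH r U p) ∧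
    c * Real.exp ((r + 1) * U) ≤ T.card

end Pool.Agent.N751.FR
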