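import Mathlib
import Pool.Agent.N751.FR.Stm
import Pool.Agent.Y733.FF.Main

/-!
# Project FR, second part (all twists, unstable heights): statements
-/

set_option autoImplicit false

namespace Pool.Agent.N751.FR

open NumberField IsDedekindDomain Module Polynomial Pool.Agent.N753.DR
open Pool.Agent.Y733.FF (discExp SemiAt)

section

variable {K : Type} [Field K]

/-- infinity is a bad place -/
def InfBad (A B : K[X]) : Prop :=
  B.natDegree < A.natDegree ∨ ¬ 3 ∣ (B.natDegree - A.natDegree) ∨
    ¬ 2 ∣ (B.natDegree - (A - 1728 * B).natDegree)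

/-- the least exponent of the discriminant, up to quadratic twist, for the order `a` of `j` and the
order `c` of `j - 1728` -/
def muA (a c : ℕ) : ℕ := if a % 3 = 1 then 2 else if a % 3 = 2 then 4 else if c % 2 = 1 then 3 else 0

open Classical in
/-- the same at the place `P` (zero at the poles of `j`) -/
noncomputable def mu (A B P : K[X]) : ℕ :=
  if P ∣ B then 0 else muA (multiplicity P A) (multiplicity P (A - 1728 * B))

/-- the same at infinity -/
noncomputable def muInf (A B : K[X]) : ℕ :=
  if B.natDegree < A.natDegree then 0 else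
    muA (B.natDegree - A.natDegree) (B.natDegree - (A - 1728 * B).natDegree)

open Classical in
/-- the number of the (geometric) bad places, infinity included -/
noncomputable def gam (A B : K[X]) : ℕ :=
  ∑ P ∈ badPl A B, P.natDegree + if InfBad A B then 1 else 0

/-- the weight of the family -/
noncomputable def wt (A B : K[X]) : ℕ :=
  max A.natDegree B.natDegree + ∑ P ∈ badPl A B, mu A B P * P.natDegree + muInf A B

end

/-- **FR/RH3** the weight and the number of the bad places (Mason-Stothers, infinity included) -/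
def StmRH3 : Prop := ∀ (K : Type) [Field K] [CharZero K] (A B : K[X]), IsCoprime A B → B ≠ 0 →
  1 ≤ max A.natDegree B.natDegree → wt A B + 12 ≤ 6 * gam A B

/-- **FR/TYPD** the minimal discriminant at a prime of potentially good reduction -/
def StmTypD : Prop := ∀ (M : Type) [Field M] [NumberField M] (w : HeightOneSpectrum (𝓞 M))
  (E : WeierstrassCurve M), E.Δ ≠ 0 → w.valuation M 6 = 1 → ∀ a c : ℕ,
  w.valuation M (E.c₄ ^ 3 / E.Δ) = WithZero.exp (-(a : ℤ)) →
  w.valuation M (E.c₄ ^ 3 / E.Δ - 1728) = WithZero.exp (-(c : ℤ)) →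
  discExp w E ≤ 6 + muA a c ∧ (muA a c ≠ 0 → ¬ SemiAt w E) ∧ (SemiAt w E → discExp w E = 0)

/-- **FR/ONE** the zeros of one polynomial -/
def StmOne : Prop := ∀ (K : Type) [Field K] [NumberField K] (r : ℕ), 1 ≤ r → ∀ E : Set K[X],
  IsExc K r E → ∀ P : K[X], P.Monic → Irreducible P → P.natDegree ≤ 2 * r + 1 →
  ∀ (S : Finset ℕ) (κ : ℝ), 0 < κ → ∃ C : ℝ,
  ∀ (M : Type) [Field M] [NumberField M] [Algebra K M] (x : M),
    finrank K M = r → (minpoly K x).natDegree = r → minpoly K x ∉ E → aeval x P ≠ 0 →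
    ∃ W₁ W₂ : Finset (HeightOneSpectrum (𝓞 M)), (∀ w, w ∈ W₁ ↔ Simple S P x w) ∧
      (∀ w, w ∈ W₂ ↔ Near S P x w ∧ ¬ Simple S P x w) ∧
      (P.natDegree - κ) * Height.logHeight₁ x ≤ ∑ w ∈ W₁, lN w + C ∧
      ∑ w ∈ W₁, lN w ≤ P.natDegree * Height.logHeight₁ x + C ∧
      ∑ w ∈ W₂, lN w ≤ κ * Height.logHeight₁ x + C

end Pool.Agent.N751.FR
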