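import Mathlib
import Pool.Agent.N751.FR.Stm
import Pool.Agent.N707.DR.VkG
import Pool.Agent.TH876.FH.Def

/-!
# Project FR: the primes at which a bad place has a simple zero are primes of bad reduction
-/

set_option autoImplicit false

namespace Pool.Agent.N751.FR

open NumberField IsDedekindDomain Module Polynomial Pool.Agent.N753.DR
open Pool.Agent.TH876.FH (GoodAt)

section

variable {M : Type} [Field M] [NumberField M]

/-- the modular invariant at a prime of good reduction -/
theorem good_j (w : HeightOneSpectrum (𝓞 M)) (E : WeierstrassCurve M) (hE : E.Δ ≠ 0)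
    (h : GoodAt w E) : ∃ a b : M, w.valuation M a ≤ 1 ∧
      w.valuation M (E.c₄ ^ 3 / E.Δ) = w.valuation M a ^ 3 ∧
      w.valuation M (E.c₄ ^ 3 / E.Δ - 1728) = w.valuation M b ^ 2 := by
  obtain ⟨C, h1, h2, h3, h4, h6, hD⟩ := h
  set F := C • E with hF
  have vn : ∀ n : ℕ, w.valuation M ((n : ℕ) : M) ≤ 1 := by
    intro n
    have := w.valuation_le_one (K := M) ((n : ℕ) : 𝓞 M)
    simpa using this
  have u0 : (C.u⁻¹ : Mˣ) ≠ (0 : M) := Units.ne_zero _
  have e1 : E.c₄ ^ 3 / E.Δ = F.c₄ ^ 3 / F.Δ := by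
    rw [hF, WeierstrassCurve.variableChange_c₄, WeierstrassCurve.variableChange_Δ]
    field_simp
  have hF0 : F.Δ ≠ 0 := by
    rw [hF, WeierstrassCurve.variableChange_Δ]
    exact mul_ne_zero (pow_ne_zero _ u0) hE
  have e2 : F.c₄ ^ 3 / F.Δ - 1728 = F.c₆ ^ 2 / F.Δ := by
    have := F.c_relation
    field_simp
    linear_combination -this
  have hmul : ∀ {x y : M}, w.valuation M x ≤ 1 → w.valuation M y ≤ 1 → w.valuation M (x * y) ≤ 1 :=
    fun {x y} hx hy => by rw [map_mul]; exact mul_le_one' hx hy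
  have hpow : ∀ {x : M} (n : ℕ), w.valuation M x ≤ 1 → w.valuation M (x ^ n) ≤ 1 :=
    fun {x} n hx => by rw [map_pow]; exact pow_le_one' hx n
  have hadd : ∀ {x y : M}, w.valuation M x ≤ 1 → w.valuation M y ≤ 1 → w.valuation M (x + y) ≤ 1 :=
    fun {x y} hx hy => (Valuation.map_add _ _ _).trans (max_le hx hy)
  have hsub : ∀ {x y : M}, w.valuation M x ≤ 1 → w.valuation M y ≤ 1 → w.valuation M (x - y) ≤ 1 :=
    fun {x y} hx hy => (Valuation.map_sub _ _ _).trans (max_le hx hy)
  have n2 := vn 2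
  have n4 := vn 4
  have n24 := vn 24
  push_cast at n2 n4 n24
  have b2 : w.valuation M F.b₂ ≤ 1 := by
    unfold WeierstrassCurve.b₂
    exact hadd (hpow 2 h1) (hmul n4 h2)
  have b4 : w.valuation M F.b₄ ≤ 1 := by
    unfold WeierstrassCurve.b₄
    exact hadd (hmul n2 h4) (hmul h1 h3)
  have c4 : w.valuation M F.c₄ ≤ 1 := by
    unfold WeierstrassCurve.c₄
    exact hsub (hpow 2 b2) (hmul n24 b4)
  refine ⟨F.c₄, F.c₆, c4, ?_, ?_⟩
  · rw [e1, map_div₀, hD, div_one, map_pow]
  · rw [e1, e2, map_div₀, hD, div_one, map_pow]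

end

section

variable {K : Type} [Field K] [NumberField K]

/-- the values of a polynomial are integral at almost all primes -/
theorem int_val (F : K[X]) : ∃ n : ℕ, n ≠ 0 ∧ ∀ (M : Type) [Field M] [NumberField M] [Algebra K M]
    (w : HeightOneSpectrum (𝓞 M)) (x : M), (n : 𝓞 M) ∉ w.asIdeal → w.valuation M x ≤ 1 →
    w.valuation M (aeval x F) ≤ 1 := by
  classical
  obtain ⟨n, hn, h⟩ := Pool.Agent.N707.DRVkG.sepZ (Finset.image F.coeff F.support)
  refine ⟨n, hn, ?_⟩
  intro M _ _ _ w x hw hx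
  rw [aeval_eq_sum_range]
  refine Valuation.map_sum_le _ fun i hi => ?_
  rw [Algebra.smul_def, map_mul, map_pow]
  refine mul_le_one' ?_ (pow_le_one' hx i)
  by_cases h0 : F.coeff i = 0
  · rw [h0, map_zero, map_zero]
    exact zero_le_one
  · exact (h M w hw _ (Finset.mem_image_of_mem _ (mem_support_iff.2 h0)) h0).le

/-- the order of vanishing of `Q` at a simple zero of `P` modulo `w` -/
theorem simple_val (P Q : K[X]) (hP : Irreducible P) (hQ : Q ≠ 0) : ∃ n : ℕ, n ≠ 0 ∧
    ∀ (M : Type) [Field M] [NumberField M] [Algebra K M] (w : HeightOneSpectrum (𝓞 M)) (x : M),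
      (n : 𝓞 M) ∉ w.asIdeal → w.valuation M x ≤ 1 →
      w.valuation M (aeval x P) = WithZero.exp (-1 : ℤ) →
      w.valuation M (aeval x Q) = WithZero.exp (-(multiplicity P Q : ℤ)) := by
  classical
  have hfm : FiniteMultiplicity P Q := by
    refine FiniteMultiplicity.of_not_isUnit hP.not_isUnit hQ
  obtain ⟨R, hR, hPR⟩ := hfm.exists_eq_pow_mul_and_not_dvd
  have hcop : IsCoprime P R := (hP.coprime_iff_not_dvd).2 hPR
  obtain ⟨a, b, hab⟩ := hcop
  obtain ⟨n1, hn1, h1⟩ := int_val a
  obtain ⟨n2, hn2, h2⟩ := int_val b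
  obtain ⟨n3, hn3, h3⟩ := int_val R
  refine ⟨n1 * n2 * n3, mul_ne_zero (mul_ne_zero hn1 hn2) hn3, ?_⟩
  intro M _ _ _ w x hw hx hv
  have k1 : (n1 : 𝓞 M) ∉ w.asIdeal := fun h => hw (by
    push_cast
    exact Ideal.mul_mem_right _ _ (Ideal.mul_mem_right _ _ h))
  have k2 : (n2 : 𝓞 M) ∉ w.asIdeal := fun h => hw (by
    push_cast
    exact Ideal.mul_mem_right _ _ (Ideal.mul_mem_left _ _ h))
  have k3 : (n3 : 𝓞 M) ∉ w.asIdeal := fun h => hw (by
    push_cast
    exact Ideal.mul_mem_left _ _ h)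
  have va := h1 M w x k1 hx
  have vb := h2 M w x k2 hx
  have vR := h3 M w x k3 hx
  have hlt : w.valuation M (aeval x a * aeval x P) < 1 := by
    rw [map_mul, hv]
    refine lt_of_le_of_lt (mul_le_of_le_one_left' va) ?_
    rw [← WithZero.exp_zero, WithZero.exp_lt_exp]
    norm_num
  have hone : aeval x a * aeval x P + aeval x b * aeval x R = 1 := by
    have := congrArg (aeval x) hab
    simpa using this
  have hb1 : w.valuation M (aeval x b * aeval x R) = 1 := by
    have e : aeval x b * aeval x R = 1 - aeval x a * aeval x P := by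
      linear_combination hone
    rw [e]
    rw [Valuation.map_sub_eq_of_lt_left, map_one]
    rw [map_one]
    exact hlt
  have hR1 : w.valuation M (aeval x R) = 1 := by
    rw [map_mul] at hb1
    refine le_antisymm vR ?_
    by_contra hc
    rw [not_le] at hc
    have : w.valuation M (aeval x b) * w.valuation M (aeval x R) < 1 := by
      refine lt_of_le_of_lt (mul_le_of_le_one_left' vb) hc
    exact absurd hb1 this.ne
  have e : aeval x Q = aeval x P ^ multiplicity P Q * aeval x R := by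
    conv_lhs => rw [hR]
    rw [map_mul, map_pow]
  rw [e, map_mul, map_pow, hv, hR1, mul_one, ← WithZero.exp_nsmul]
  simp

end

end Pool.Agent.N751.FR
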