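import Mathlib
import Pool.Agent.N751.FR.Stm
import Pool.Agent.N751.FR.Loc
import Pool.Agent.N753.DR.AllDR
import Pool.Agent.N400.FR.Sim

/-!
# Project FR: infinity as a bad place
-/

set_option autoImplicit false

namespace Pool.Agent.N751.FR

open NumberField IsDedekindDomain Module Polynomial Pool.Agent.N753.DR
open Pool.Agent.TH876.FH (GoodAt)

/-- the exceptional set for the coordinates `x` and `1 / x` -/
def IsExc2 (K : Type) [Field K] [NumberField K] (r : ℕ) (E : Set K[X]) : Prop :=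
  IsExc K r E ∧ ∃ E₀ : Set K[X], IsExc K r E₀ ∧
    ∀ (M : Type) [Field M] [NumberField M] [Algebra K M] (x : M), finrank K M = r →
      (minpoly K x).natDegree = r → minpoly K x ∉ E → x ≠ 0 →
      minpoly K x⁻¹ ∉ E₀ ∧ (minpoly K x⁻¹).natDegree = r

/-- one exceptional set -/
theorem exists_exc (K : Type) [Field K] [NumberField K] (r : ℕ) (hr : 1 ≤ r) :
    ∃ E : Set K[X], (∀ U : ℝ, 0 ≤ U → {p | p ∈ E ∧ AtH r U p}.Finite ∧
      ({p | p ∈ E ∧ AtH r U p}.ncard : ℝ) ≤ 2 * Real.exp ((r + 1) * U - √U)) ∧ IsExc2 K r E := by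
  obtain ⟨E, h1, h2⟩ := ke K r hr
  refine ⟨Pool.Agent.N707.DRVkG.Ex E, fun U hU =>
    Pool.Agent.N707.DRVkG.ex_count (h1 U hU).1 (h1 U hU).2, ?_, E, h2, ?_⟩
  · intro S F hF1 hF2 hF3 κ hκ
    obtain ⟨C, hC⟩ := h2 S F hF1 hF2 hF3 κ hκ
    exact ⟨C, fun M _ _ _ x hM hx hxE W hW => hC M x hM hx (fun h => hxE (Or.inl h)) W hW⟩
  · intro M _ _ _ x hM hx hxE hx0
    have hfd : FiniteDimensional K M := FiniteDimensional.right ℚ K M
    have hi : IsIntegral K x := IsIntegral.of_finite K x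
    refine ⟨fun h => hxE (Or.inr ⟨Pool.Agent.N707.DRVkG.coeff0_ne hi hx0, ?_⟩), ?_⟩
    · rw [← Pool.Agent.N707.DRVkG.minpoly_inv hi hx0]
      exact h
    · rw [Pool.Agent.N707.DRVkG.deg_inv hi hx0, hx]

/-- `x` is near infinity of order one at `w` -/
def SimInf {M : Type} [Field M] [NumberField M] (S : Finset ℕ) (x : M)
    (w : HeightOneSpectrum (𝓞 M)) : Prop :=
  (∀ p ∈ S, p ≠ 0 → (p : 𝓞 M) ∉ w.asIdeal) ∧ w.valuation M x = WithZero.exp (1 : ℤ)

open Classical in
/-- simple zeros of several polynomials, and simple poles -/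
theorem sim_all (K : Type) [Field K] [NumberField K] (r : ℕ) (hr : 1 ≤ r) (E : Set K[X])
    (hE : IsExc2 K r E) (PP : Finset K[X])
    (hPP : ∀ P ∈ PP, P.Monic ∧ Irreducible P ∧ P.natDegree ≤ 2 * r + 1) (S : Finset ℕ) (κ : ℝ)
    (hκ : 0 < κ) (I : Prop) : ∃ C : ℝ,
    ∀ (M : Type) [Field M] [NumberField M] [Algebra K M] (x : M),
    finrank K M = r → (minpoly K x).natDegree = r → minpoly K x ∉ E →
    ∀ W : Finset (HeightOneSpectrum (𝓞 M)), (∀ w, (∃ P ∈ PP, Simple S P x w) → w ∈ W) →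
      (I → ∀ w, SimInf S x w → w ∈ W) →
      (((∑ P ∈ PP, P.natDegree + if I then 1 else 0 : ℕ) : ℝ) - κ) * Height.logHeight₁ x ≤
        ∑ w ∈ W, lN w + C := by
  obtain ⟨hE1, E₀, hE0, hE2⟩ := hE
  obtain ⟨C1, hC1⟩ := Pool.Agent.N400.FRSim.t0 K r hr E hE1 PP hPP S (κ / 2) (by positivity)
  obtain ⟨C2, hC2⟩ := Pool.Agent.N400.FRSim.t0 K r hr E₀ hE0 {X} (by
    intro P hP
    rw [Finset.mem_singleton] at hP
    subst hP
    refine ⟨monic_X, irreducible_X, ?_⟩
    rw [natDegree_X]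
    omega) S (κ / 2) (by positivity)
  refine ⟨|C1| + |C2|, ?_⟩
  intro M _ _ _ x hM hx hxE W hW hWI
  have hh : 0 ≤ Height.logHeight₁ x := Height.zero_le_logHeight₁ x
  have hlN : ∀ w : HeightOneSpectrum (𝓞 M), 0 ≤ lN w := Pool.Agent.N262.DR.lN_nonneg
  have a1 := le_abs_self C1
  have a2 := le_abs_self C2
  have p1 := abs_nonneg C1
  have p2 := abs_nonneg C2
  have key := hC1 M x hM hx hxE (W.filter fun w => w.valuation M x ≤ 1) (by
    rintro w ⟨P, hP, hs⟩
    exact Finset.mem_filter.2 ⟨hW w ⟨P, hP, hs⟩, hs.2.1⟩)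
  have hsplit := Finset.sum_filter_add_sum_filter_not W (fun w => w.valuation M x ≤ 1)
    (fun w => lN w)
  by_cases hI : I
  · simp only [hI, if_true]
    rcases eq_or_ne x 0 with rfl | hx0
    · have h0 : Height.logHeight₁ (0 : M) = 0 := Height.logHeight₁_zero
      rw [h0, mul_zero]
      have : 0 ≤ ∑ w ∈ W, lN w := Finset.sum_nonneg fun w _ => hlN w
      linarith
    · obtain ⟨h3, h4⟩ := hE2 M x hM hx hxE hx0
      have key2 := hC2 M x⁻¹ hM h4 h3 (W.filter fun w => ¬ w.valuation M x ≤ 1) (by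
        rintro w ⟨P, hP, hs⟩
        rw [Finset.mem_singleton] at hP
        subst hP
        obtain ⟨s1, s2, s3⟩ := hs
        rw [aeval_X, map_inv₀] at s3
        have h5 : w.valuation M x = WithZero.exp (1 : ℤ) := by
          rw [← inv_inv (w.valuation M x), s3, ← WithZero.exp_neg]
          norm_num
        refine Finset.mem_filter.2 ⟨hWI hI w ⟨s1, h5⟩, ?_⟩
        rw [h5, not_le, ← WithZero.exp_zero, WithZero.exp_lt_exp]
        norm_num)
      rw [Height.logHeight₁_inv, Finset.sum_singleton, natDegree_X] at key2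
      push_cast at key key2 ⊢
      have e : ((∑ P ∈ PP, (P.natDegree : ℝ)) + 1 - κ) * Height.logHeight₁ x =
        ((∑ P ∈ PP, (P.natDegree : ℝ)) - κ / 2) * Height.logHeight₁ x +
        (1 - κ / 2) * Height.logHeight₁ x := by ring
      rw [e]
      linarith
  · simp only [hI, if_false, add_zero]
    have h6 : 0 ≤ ∑ w ∈ W.filter (fun w => ¬ w.valuation M x ≤ 1), lN w :=
      Finset.sum_nonneg fun w _ => hlN w
    have h7 : (((∑ P ∈ PP, P.natDegree : ℕ) : ℝ) - κ) * Height.logHeight₁ x ≤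
        (((∑ P ∈ PP, P.natDegree : ℕ) : ℝ) - κ / 2) * Height.logHeight₁ x :=
      mul_le_mul_of_nonneg_right (by linarith) hh
    linarith

section

variable {K : Type} [Field K] [NumberField K]

/-- the order of a polynomial at infinity -/
theorem inf_val (Q : K[X]) (hQ : Q ≠ 0) : ∃ n : ℕ, n ≠ 0 ∧
    ∀ (M : Type) [Field M] [NumberField M] [Algebra K M] (w : HeightOneSpectrum (𝓞 M)) (x : M),
      (n : 𝓞 M) ∉ w.asIdeal → 1 < w.valuation M x →
      w.valuation M (aeval x Q) = w.valuation M x ^ Q.natDegree := by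
  classical
  obtain ⟨n, hn, h⟩ := Pool.Agent.N707.DRVkG.sepZ (Finset.image Q.coeff Q.support)
  refine ⟨n, hn, ?_⟩
  intro M _ _ _ w x hw hx
  have hc : ∀ i, w.valuation M (algebraMap K M (Q.coeff i)) ≤ 1 := by
    intro i
    by_cases h0 : Q.coeff i = 0
    · rw [h0, map_zero, map_zero]
      exact zero_le_one
    · exact (h M w hw _ (Finset.mem_image_of_mem _ (mem_support_iff.2 h0)) h0).le
  have hl : w.valuation M (algebraMap K M Q.leadingCoeff) = 1 :=
    h M w hw _ (Finset.mem_image_of_mem _ (mem_support_iff.2 (leadingCoeff_ne_zero.2 hQ)))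
      (leadingCoeff_ne_zero.2 hQ)
  rw [aeval_eq_sum_range, Finset.sum_range_succ]
  have htop : w.valuation M (Q.coeff Q.natDegree • x ^ Q.natDegree) =
      w.valuation M x ^ Q.natDegree := by
    rw [Algebra.smul_def, map_mul, map_pow]
    have : Q.coeff Q.natDegree = Q.leadingCoeff := rfl
    rw [this, hl, one_mul]
  have hx0 : 0 < w.valuation M x := lt_trans zero_lt_one hx
  have hlow : w.valuation M (∑ i ∈ Finset.range Q.natDegree, Q.coeff i • x ^ i) <
      w.valuation M (Q.coeff Q.natDegree • x ^ Q.natDegree) := by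
    rw [htop]
    refine Valuation.map_sum_lt _ (pow_pos hx0 _).ne' fun i hi => ?_
    rw [Algebra.smul_def, map_mul, map_pow]
    refine lt_of_le_of_lt (mul_le_of_le_one_left' (hc i)) ?_
    exact pow_lt_pow_right₀ hx (Finset.mem_range.1 hi)
  rw [Valuation.map_add_eq_of_lt_right _ hlow, htop]

end

end Pool.Agent.N751.FR
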