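import Mathlib
import Pool.Agent.N751.FR.Stm2
import Pool.Agent.N751.FR.Inf
import Pool.Agent.N751.FR.Asm
import Pool.Agent.N490.FR.Ht
import Pool.Agent.N31.FR.Tot

/-!
# Project FR: the first theorem (stable heights)
-/

set_option autoImplicit false

namespace Pool.Agent.N751.FR

open NumberField IsDedekindDomain Module Polynomial Pool.Agent.N753.DR
open Pool.Agent.TH876.FH (GoodAt badNorm faltings IsPeriod)

section

variable {K : Type} [Field K] [NumberField K]

/-- the primes at which `x` has a simple pole are bad if infinity is bad -/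
theorem bad_of_inf (A B : K[X]) (hB : B ≠ 0) (hA : A ≠ 0)
    (hAB : A - 1728 * B ≠ 0) (hI : InfBad A B) : ∃ n : ℕ, n ≠ 0 ∧
    ∀ (M : Type) [Field M] [NumberField M] [Algebra K M] (w : HeightOneSpectrum (𝓞 M)) (x : M),
      (n : 𝓞 M) ∉ w.asIdeal → w.valuation M x = WithZero.exp (1 : ℤ) → aeval x B ≠ 0 →
      ∀ E : WeierstrassCurve M, E.Δ ≠ 0 → E.c₄ ^ 3 / E.Δ = aeval x A / aeval x B →
        ¬ GoodAt w E := by
  classical
  obtain ⟨nA, hnA, hA'⟩ := inf_val A hA
  obtain ⟨nB, hnB, hB'⟩ := inf_val B hB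
  obtain ⟨nC, hnC, hC'⟩ := inf_val (A - 1728 * B) hAB
  have hdeg : (A - 1728 * B).natDegree ≤ max A.natDegree B.natDegree := by
    refine (natDegree_sub_le _ _).trans (max_le_max le_rfl ?_)
    have : (1728 : K[X]) = C 1728 := (map_ofNat C 1728).symm
    rw [this]
    exact natDegree_C_mul_le _ _
  refine ⟨nA * nB * nC, mul_ne_zero (mul_ne_zero hnA hnB) hnC, ?_⟩
  intro M _ _ _ w x hw hv hBx E hE hj hgood
  have k1 : (nA : 𝓞 M) ∉ w.asIdeal := fun h => hw (by
    push_cast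
    exact Ideal.mul_mem_right _ _ (Ideal.mul_mem_right _ _ h))
  have k2 : (nB : 𝓞 M) ∉ w.asIdeal := fun h => hw (by
    push_cast
    exact Ideal.mul_mem_right _ _ (Ideal.mul_mem_left _ _ h))
  have k3 : (nC : 𝓞 M) ∉ w.asIdeal := fun h => hw (by
    push_cast
    exact Ideal.mul_mem_left _ _ h)
  have hx : 1 < w.valuation M x := by
    rw [hv, ← WithZero.exp_zero, WithZero.exp_lt_exp]
    norm_num
  have vA := hA' M w x k1 hx
  have vB := hB' M w x k2 hx
  have vC := hC' M w x k3 hx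
  rw [hv, ← WithZero.exp_nsmul] at vA vB vC
  obtain ⟨a, b, ha, e3, e2⟩ := good_j w E hE hgood
  rw [hj, map_div₀, vA, vB, ← WithZero.exp_sub] at e3
  have e2' : aeval x A / aeval x B - 1728 = aeval x (A - 1728 * B) / aeval x B := by
    rw [map_sub, map_mul, map_ofNat]
    field_simp
  rw [hj, e2', map_div₀, vC, vB, ← WithZero.exp_sub] at e2
  -- valuations of `a` and `b`
  have ha0 : a ≠ 0 := by
    rintro rfl
    rw [map_zero, zero_pow (by norm_num)] at e3
    exact WithZero.exp_ne_zero e3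
  have hb0 : b ≠ 0 := by
    rintro rfl
    rw [map_zero, zero_pow (by norm_num)] at e2
    exact WithZero.exp_ne_zero e2
  obtain ⟨s, hs⟩ : ∃ s : ℤ, w.valuation M a = WithZero.exp s :=
    ⟨WithZero.log (w.valuation M a), (WithZero.exp_log ((Valuation.ne_zero_iff _).2 ha0)).symm⟩
  obtain ⟨t, ht⟩ : ∃ t : ℤ, w.valuation M b = WithZero.exp t :=
    ⟨WithZero.log (w.valuation M b), (WithZero.exp_log ((Valuation.ne_zero_iff _).2 hb0)).symm⟩
  rw [hs, ← WithZero.exp_nsmul, WithZero.exp_inj] at e3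
  rw [ht, ← WithZero.exp_nsmul, WithZero.exp_inj] at e2
  have hs0 : s ≤ 0 := by
    rw [hs, ← WithZero.exp_zero, WithZero.exp_le_exp] at ha
    exact ha
  simp only [nsmul_eq_mul, mul_one] at e3 e2
  push_cast at e3 e2
  unfold InfBad at hI
  have h1 : A.natDegree ≤ B.natDegree := by omega
  rw [max_eq_right h1] at hdeg
  rcases hI with h | h | h
  · omega
  · apply h
    omega
  · apply h
    omega

end

open Classical in
/-- the number of the (geometric) bad places of degree at most `2 r + 1`, infinity included -/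
noncomputable def gamR {K : Type} [Field K] (r : ℕ) (A B : K[X]) : ℕ :=
  ∑ P ∈ badR r A B, P.natDegree + if InfBad A B then 1 else 0

theorem main1 (K : Type) [Field K] [NumberField K] (r : ℕ)
    (hr : 1 ≤ r) (E : Set K[X]) (hE : IsExc2 K r E) (A B : K[X]) (hcop : IsCoprime A B)
    (hN : 1 ≤ max A.natDegree B.natDegree) (hg : 1 ≤ gamR r A B) (ε : ℝ)
    (hε : 0 < ε) : ∃ C : ℝ, ∀ (M : Type) [Field M] [NumberField M] [Algebra K M] (x : M),
      finrank K M = r → (minpoly K x).natDegree = r → minpoly K x ∉ E → aeval x B ≠ 0 →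
      ∀ (F : WeierstrassCurve M) (τ : InfinitePlace M → UpperHalfPlane), F.Δ ≠ 0 →
        F.c₄ ^ 3 / F.Δ = aeval x A / aeval x B → IsPeriod (F.c₄ ^ 3 / F.Δ) τ →
        finrank ℚ M * faltings (F.c₄ ^ 3 / F.Δ) τ ≤
          ((max A.natDegree B.natDegree : ℕ) / (12 * gamR r A B) + ε) *
            Real.log (badNorm F) + C := by
  classical
  by_cases hB : B = 0
  · refine ⟨0, ?_⟩
    intro M _ _ _ x _ _ _ hBx
    exact absurd (by rw [hB, map_zero]) hBx
  have hA : A ≠ 0 := by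
    rintro rfl
    have h1 : IsUnit B := isCoprime_zero_left.1 hcop
    rw [natDegree_eq_zero_of_isUnit h1] at hN
    simp at hN
  have hAB : A - 1728 * B ≠ 0 := by
    intro h
    have hA' : A = 1728 * B := by linear_combination h
    have h1 : B ∣ A := ⟨1728, by rw [hA']; ring⟩
    have h2 : IsUnit B := hcop.isUnit_of_dvd' h1 dvd_rfl
    have h3 : A.natDegree = 0 := by
      rw [hA']
      have : (1728 : K[X]) = C 1728 := (map_ofNat C 1728).symm
      rw [this]
      have h4 := natDegree_C_mul_le (1728 : K) B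
      rw [natDegree_eq_zero_of_isUnit h2] at h4
      omega
    rw [natDegree_eq_zero_of_isUnit h2, h3] at hN
    simp at hN
  obtain ⟨N, hNd⟩ : ∃ N : ℕ, N = max A.natDegree B.natDegree := ⟨_, rfl⟩
  obtain ⟨γ, hγd⟩ : ∃ γ : ℕ, γ = gamR r A B := ⟨_, rfl⟩
  rw [← hNd] at hN ⊢
  rw [← hγd] at hg ⊢
  have hN0 : (1 : ℝ) ≤ N := by exact_mod_cast hN
  have hγ0 : (1 : ℝ) ≤ γ := by exact_mod_cast hg
  have hmem : ∀ P ∈ badR r A B, P ∈ badPl A B := fun P hP => (Finset.mem_filter.1 hP).1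
  have hPP : ∀ P ∈ badR r A B, P.Monic ∧ Irreducible P ∧ P.natDegree ≤ 2 * r + 1 := by
    intro P hP
    obtain ⟨h1, h2⟩ := Finset.mem_filter.1 hP
    unfold badPl at h1
    rw [Finset.mem_filter, Multiset.mem_toFinset] at h1
    have h3 := UniqueFactorizationMonoid.irreducible_of_normalized_factor P h1.1
    have h4 := UniqueFactorizationMonoid.normalize_normalized_factor P h1.1
    refine ⟨?_, h3, h2⟩
    rw [← h4]
    exact monic_normalize h3.ne_zero
  choose n hn0 hn using fun P : {P // P ∈ badPl A B} =>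
    bad_of_simple A B P.1 hcop hB hA hAB P.2
  obtain ⟨n', hn0', hn'⟩ : ∃ n : ℕ, n ≠ 0 ∧ (InfBad A B →
    ∀ (M : Type) [Field M] [NumberField M] [Algebra K M] (w : HeightOneSpectrum (𝓞 M)) (x : M),
      (n : 𝓞 M) ∉ w.asIdeal → w.valuation M x = WithZero.exp (1 : ℤ) → aeval x B ≠ 0 →
      ∀ E : WeierstrassCurve M, E.Δ ≠ 0 → E.c₄ ^ 3 / E.Δ = aeval x A / aeval x B →
        ¬ GoodAt w E) := by
    by_cases hI : InfBad A B
    · obtain ⟨n, hn, h⟩ := bad_of_inf A B hB hA hAB hI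
      exact ⟨n, hn, fun _ => h⟩
    · exact ⟨1, one_ne_zero, fun h => absurd h hI⟩
  obtain ⟨S, hSd⟩ : ∃ S : Finset ℕ, S = insert n' ((badPl A B).attach.image n) := ⟨_, rfl⟩
  obtain ⟨κ, hκ⟩ : ∃ κ : ℝ, κ = min ((γ : ℝ) / 2) (6 * ε / N) := ⟨_, rfl⟩
  have hκ0 : 0 < κ := by rw [hκ]; exact lt_min (by positivity) (by positivity)
  have hκ1 : κ ≤ (γ : ℝ) / 2 := by rw [hκ]; exact min_le_left _ _
  have hκ2 : κ ≤ 6 * ε / N := by rw [hκ]; exact min_le_right _ _
  obtain ⟨C1, hC1⟩ := sim_all K r hr E hE (badR r A B) hPP S κ hκ0 (InfBad A B)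
  obtain ⟨C2, hC2⟩ := Pool.Agent.N490.FR.Ht.t K A B hcop r
  obtain ⟨C3, hC3, hC3'⟩ := Pool.Agent.Y729.FW.fal_two
  refine ⟨(N / (12 * γ) + ε) * |C1| + (|C2| + C3 * (finrank ℚ K * r)) / 12, ?_⟩
  intro M _ _ _ x hM hx hxE hBx F τ hF hj hτ
  obtain ⟨W, hW, hWs⟩ := Pool.Agent.Y729.AE.bad_sum F hF
  have h1 := hC1 M x hM hx hxE W (by
    rintro w ⟨P, hP, hPS⟩
    rw [hW]
    obtain ⟨hs1, hs2, hs3⟩ := hPS
    refine hn ⟨P, hmem P hP⟩ M w x ?_ hs2 hs3 hBx F hF hj
    refine hs1 _ ?_ (hn0 _)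
    rw [hSd]
    exact Finset.mem_insert_of_mem (Finset.mem_image_of_mem n (Finset.mem_attach _ _))) (by
    intro hI w hw
    rw [hW]
    refine hn' hI M w x (hw.1 _ ?_ hn0') hw.2 hBx F hF hj
    rw [hSd]
    exact Finset.mem_insert_self _ _)
  have h2 := (hC2 M x hM hBx).1
  have h3 := hC3' M (F.c₄ ^ 3 / F.Δ) τ hτ
  have hsum : ∑ w ∈ W, lN w = Real.log (badNorm F) := hWs
  have hgam : (∑ P ∈ badR r A B, P.natDegree + if InfBad A B then 1 else 0 : ℕ) = γ := by
    rw [hγd]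
    rfl
  rw [hsum, hgam] at h1
  rw [← hNd] at h2
  have hlog : 0 ≤ Real.log (badNorm F) := Real.log_nonneg (Pool.Agent.TH876.TT.Viol_one_le F)
  have hrank : (finrank ℚ M : ℝ) = finrank ℚ K * r := by
    rw [← hM]
    exact_mod_cast (finrank_mul_finrank ℚ K M).symm
  have hh : 0 ≤ Height.logHeight₁ x := Height.zero_le_logHeight₁ x
  obtain ⟨L, hL⟩ : ∃ L : ℝ, L = Real.log (badNorm F) := ⟨_, rfl⟩
  obtain ⟨h, hhd⟩ : ∃ h : ℝ, h = Height.logHeight₁ x := ⟨_, rfl⟩
  rw [← hL] at h1 hlog ⊢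
  rw [← hhd] at h1 h2 hh
  have hgk : (γ : ℝ) / 2 ≤ γ - κ := by linarith
  have hgk0 : 0 < (γ : ℝ) - κ := by linarith
  have h4 : h ≤ (L + |C1|) / (γ - κ) := by
    rw [le_div_iff₀ hgk0, mul_comm]
    have := le_abs_self C1
    linarith
  have h5 : (N : ℝ) / (12 * (γ - κ)) ≤ N / (12 * γ) + ε := by
    have e1 : κ * N ≤ 6 * ε := by
      have := (le_div_iff₀ (by linarith : (0 : ℝ) < N)).1 hκ2
      linarith
    have e0 : (1 : ℝ) / 2 ≤ γ * (γ - κ) := by
      calc (1 : ℝ) / 2 = 1 * (1 / 2) := by ring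
        _ ≤ γ * (γ - κ) := mul_le_mul hγ0 (by linarith) (by norm_num) (by linarith)
    have hγp : (0 : ℝ) < γ := by linarith
    have e2 : (N : ℝ) / (12 * (γ - κ)) - N / (12 * γ) = (κ * N) / (12 * (γ * (γ - κ))) := by
      field_simp
      ring
    have e3 : (κ * N) / (12 * (γ * (γ - κ))) ≤ ε := by
      rw [div_le_iff₀ (by positivity)]
      calc κ * N ≤ 6 * ε := e1
        _ = ε * (12 * (1 / 2)) := by ring
        _ ≤ _ := by gcongr
    linarith
  have h6 : 12 * (finrank ℚ M * faltings (F.c₄ ^ 3 / F.Δ) τ) ≤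
      N * h + |C2| + C3 * (finrank ℚ K * r) := by
    rw [hj] at h3 ⊢
    rw [← hrank]
    have := le_abs_self C2
    linarith
  have h7 : (N : ℝ) * h ≤ 12 * ((N / (12 * γ) + ε) * (L + |C1|)) := by
    calc (N : ℝ) * h ≤ N * ((L + |C1|) / (γ - κ)) := by gcongr
      _ = 12 * ((N / (12 * (γ - κ))) * (L + |C1|)) := by
        field_simp
      _ ≤ _ := by
        have : 0 ≤ L + |C1| := by positivity
        gcongr
  have h8 : (N / (12 * γ) + ε) * (L + |C1|) =
      ((N : ℝ) / (12 * γ) + ε) * L + (N / (12 * γ) + ε) * |C1| := by ring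
  linarith

end Pool.Agent.N751.FR
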