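import Mathlib
import Pool.Agent.N751.FR.Stm2
import Pool.Agent.N751.FR.Inf
import Pool.Agent.N441.FR.TypD

/-!
# Project FR: the local inequality for the minimal discriminant
-/

set_option autoImplicit false
set_option linter.unusedSectionVars false

namespace Pool.Agent.N751.FR

open NumberField IsDedekindDomain Module Polynomial Pool.Agent.N753.DR
open Pool.Agent.TH876.FH (GoodAt)
open Pool.Agent.Y733.FF (discExp SemiAt aw mw disc_bound semi_disc fv_exp fv_one_iff fv_le_one_iff)
open Pool.Agent.H691R3 (fv Nv)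

section

variable {K : Type} [Field K] [NumberField K]

/-- the order of vanishing of `Q` at a zero of `P` modulo `w` -/
theorem gen_val (P Q : K[X]) (hP : Irreducible P) (hQ : Q ≠ 0) : ∃ n : ℕ, n ≠ 0 ∧
    ∀ (M : Type) [Field M] [NumberField M] [Algebra K M] (w : HeightOneSpectrum (𝓞 M)) (x : M),
      (n : 𝓞 M) ∉ w.asIdeal → w.valuation M x ≤ 1 → w.valuation M (aeval x P) < 1 →
      w.valuation M (aeval x Q) = w.valuation M (aeval x P) ^ multiplicity P Q := by
  classical
  have hfm : FiniteMultiplicity P Q := FiniteMultiplicity.of_not_isUnit hP.not_isUnit hQ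
  obtain ⟨R, hR, hPR⟩ := hfm.exists_eq_pow_mul_and_not_dvd
  have hcop : IsCoprime P R := (hP.coprime_iff_not_dvd).2 hPR
  obtain ⟨a, b, hab⟩ := hcop
  obtain ⟨n1, hn1, h1⟩ := int_val a
  obtain ⟨n2, hn2, h2⟩ := int_val b
  obtain ⟨n3, hn3, h3⟩ := int_val R
  refine ⟨n1 * n2 * n3, mul_ne_zero (mul_ne_zero hn1 hn2) hn3, ?_⟩
  intro M _ _ _ w x hw hx hv
  have k1 : (n1 : 𝓞 M) ∉ w.asIdeal := fun h => hw (by
    push_cast
    exact Ideal.mul_mem_right _ _ (Ideal.mul_mem_right _ _ h))
  have k2 : (n2 : 𝓞 M) ∉ w.asIdeal := fun h => hw (by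
    push_cast
    exact Ideal.mul_mem_right _ _ (Ideal.mul_mem_left _ _ h))
  have k3 : (n3 : 𝓞 M) ∉ w.asIdeal := fun h => hw (by
    push_cast
    exact Ideal.mul_mem_left _ _ h)
  have va := h1 M w x k1 hx
  have vb := h2 M w x k2 hx
  have vR := h3 M w x k3 hx
  have hlt : w.valuation M (aeval x a * aeval x P) < 1 := by
    rw [map_mul]
    exact lt_of_le_of_lt (mul_le_of_le_one_left' va) hv
  have hone : aeval x a * aeval x P + aeval x b * aeval x R = 1 := by
    have := congrArg (aeval x) hab
    simpa using this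
  have hb1 : w.valuation M (aeval x b * aeval x R) = 1 := by
    have e : aeval x b * aeval x R = 1 - aeval x a * aeval x P := by
      linear_combination hone
    rw [e]
    rw [Valuation.map_sub_eq_of_lt_left, map_one]
    rw [map_one]
    exact hlt
  have hR1 : w.valuation M (aeval x R) = 1 := by
    rw [map_mul] at hb1
    refine le_antisymm vR ?_
    by_contra hc
    rw [not_le] at hc
    have : w.valuation M (aeval x b) * w.valuation M (aeval x R) < 1 := by
      refine lt_of_le_of_lt (mul_le_of_le_one_left' vb) hc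
    exact absurd hb1 this.ne
  have e : aeval x Q = aeval x P ^ multiplicity P Q * aeval x R := by
    conv_lhs => rw [hR]
    rw [map_mul, map_pow]
  rw [e, map_mul, map_pow, hR1, mul_one]

open Classical in
/-- the value of `Q` is a unit if `x` is not near to a zero of `Q` -/
theorem far_val (Q : K[X]) (hQ : Q ≠ 0) : ∃ n : ℕ, n ≠ 0 ∧
    ∀ (M : Type) [Field M] [NumberField M] [Algebra K M] (w : HeightOneSpectrum (𝓞 M)) (x : M),
      (n : 𝓞 M) ∉ w.asIdeal → w.valuation M x ≤ 1 →
      (∀ P ∈ UniqueFactorizationMonoid.normalizedFactors Q, ¬ w.valuation M (aeval x P) < 1) →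
      w.valuation M (aeval x Q) = 1 := by
  classical
  obtain ⟨u, hu⟩ := UniqueFactorizationMonoid.prod_normalizedFactors hQ
  obtain ⟨n1, hn1, h1⟩ := int_val (u : K[X])
  obtain ⟨n2, hn2, h2⟩ := int_val ((u⁻¹ : K[X]ˣ) : K[X])
  choose n3 hn3 h3 using fun P : K[X] => int_val P
  set s := UniqueFactorizationMonoid.normalizedFactors Q with hs
  refine ⟨n1 * n2 * ∏ P ∈ s.toFinset, n3 P, mul_ne_zero (mul_ne_zero hn1 hn2)
    (Finset.prod_ne_zero_iff.2 fun P _ => hn3 P), ?_⟩
  intro M _ _ _ w x hw hx hfar
  have k1 : (n1 : 𝓞 M) ∉ w.asIdeal := fun h => hw (by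
    rw [Nat.cast_mul, Nat.cast_mul]
    exact Ideal.mul_mem_right _ _ (Ideal.mul_mem_right _ _ h))
  have k2 : (n2 : 𝓞 M) ∉ w.asIdeal := fun h => hw (by
    rw [Nat.cast_mul, Nat.cast_mul]
    exact Ideal.mul_mem_right _ _ (Ideal.mul_mem_left _ _ h))
  have k3 : ∀ P ∈ s, (n3 P : 𝓞 M) ∉ w.asIdeal := fun P hP h => hw (by
    rw [Nat.cast_mul]
    refine Ideal.mul_mem_left _ _ ?_
    obtain ⟨t, ht⟩ := Finset.dvd_prod_of_mem n3 (Multiset.mem_toFinset.2 hP)
    rw [ht, Nat.cast_mul]
    exact Ideal.mul_mem_right _ _ h)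
  have v1 := h1 M w x k1 hx
  have v2 := h2 M w x k2 hx
  have hu1 : w.valuation M (aeval x (u : K[X])) * w.valuation M (aeval x ((u⁻¹ : K[X]ˣ) : K[X])) = 1 := by
    rw [← map_mul, ← map_mul, Units.mul_inv, map_one, map_one]
  have v3 : w.valuation M (aeval x (u : K[X])) = 1 := by
    refine le_antisymm v1 ?_
    by_contra hc
    rw [not_le] at hc
    have : w.valuation M (aeval x (u : K[X])) * w.valuation M (aeval x ((u⁻¹ : K[X]ˣ) : K[X])) < 1 :=
      lt_of_le_of_lt (mul_le_of_le_one_right' v2) hc
    exact absurd hu1 this.ne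
  have v4 : w.valuation M (aeval x s.prod) = 1 := by
    rw [map_multiset_prod, map_multiset_prod, Multiset.map_map]
    refine Multiset.prod_eq_one fun z hz => ?_
    obtain ⟨P, hP, rfl⟩ := Multiset.mem_map.1 hz
    exact le_antisymm (h3 P M w x (k3 P hP) hx) (not_lt.1 (hfar P hP))
  rw [← hu, map_mul, map_mul, v4, v3, one_mul]

end

section

variable {M : Type} [Field M] [NumberField M]

theorem muA_le (a c : ℕ) : muA a c ≤ 4 := by
  unfold muA
  split_ifs <;> omega

theorem lN_nn (w : HeightOneSpectrum (𝓞 M)) : 0 ≤ lN w := Pool.Agent.N262.DR.lN_nonneg w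

theorem aw_of_not {w : HeightOneSpectrum (𝓞 M)} {E : WeierstrassCurve M} (h : ¬ SemiAt w E)
    (h6 : w.valuation M 6 = 1) : aw w E = lN w := by
  unfold aw
  exact if_pos ⟨h, h6⟩

/-- the local inequality at a pole of `j` -/
theorem key_pole (w : HeightOneSpectrum (𝓞 M)) (E : WeierstrassCurve M) (hE : E.Δ ≠ 0)
    (h6 : w.valuation M 6 = 1) (hj : 1 < w.valuation M (E.c₄ ^ 3 / E.Δ)) :
    (discExp w E : ℝ) * lN w ≤ Real.log (max (fv w (E.c₄ ^ 3 / E.Δ)) 1) + 6 * aw w E := by
  by_cases hs : SemiAt w E
  · have h1 := semi_disc w E hE hs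
    have h2 := Pool.Agent.Y733.FF.aw_nonneg w E
    have h3 : (discExp w E : ℝ) * lN w ≤ Real.log (max (fv w (E.c₄ ^ 3 / E.Δ)) 1) := h1
    linarith
  · have hn : ∀ k : M, w.valuation M k = 1 → fv w k = 1 := fun k h => (fv_one_iff w).2 h
    have h23 : w.valuation M 2 = 1 ∧ w.valuation M 3 = 1 := by
      have e : (6 : M) = 2 * 3 := by norm_num
      rw [e, map_mul] at h6
      have l2 : w.valuation M 2 ≤ 1 := by
        have h : w.valuation M (algebraMap (𝓞 M) M (2 : 𝓞 M)) ≤ 1 := w.valuation_le_one _
        rwa [map_ofNat] at h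
      have l3 : w.valuation M 3 ≤ 1 := by
        have h : w.valuation M (algebraMap (𝓞 M) M (3 : 𝓞 M)) ≤ 1 := w.valuation_le_one _
        rwa [map_ofNat] at h
      constructor
      · refine le_antisymm l2 ?_
        by_contra hc
        rw [not_le] at hc
        exact absurd h6 (lt_of_le_of_lt (mul_le_of_le_one_right' l3) hc).ne
      · refine le_antisymm l3 ?_
        by_contra hc
        rw [not_le] at hc
        exact absurd h6 (lt_of_le_of_lt (mul_le_of_le_one_left' l2) hc).ne
    have h1 := (disc_bound w E hE).2 (hn 2 h23.1) (hn 3 h23.2) (by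
      rw [← not_le, fv_le_one_iff, not_le]
      exact hj)
    rw [aw_of_not hs h6]
    exact h1

/-- the local inequality at a prime where `j` is integral -/
theorem key_int (w : HeightOneSpectrum (𝓞 M)) (E : WeierstrassCurve M) (hE : E.Δ ≠ 0)
    (h6 : w.valuation M 6 = 1) {a c : ℕ}
    (ha : w.valuation M (E.c₄ ^ 3 / E.Δ) = WithZero.exp (-(a : ℤ)))
    (hc : w.valuation M (E.c₄ ^ 3 / E.Δ - 1728) = WithZero.exp (-(c : ℤ))) :
    (discExp w E : ℝ) * lN w ≤ Real.log (max (fv w (E.c₄ ^ 3 / E.Δ)) 1) + 6 * aw w E +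
      lN w * muA a c := by
  obtain ⟨h1, h2, h3⟩ := Pool.Agent.N441.FR.t M w E hE h6 a c ha hc
  have h4 : 0 ≤ Real.log (max (fv w (E.c₄ ^ 3 / E.Δ)) 1) := Real.log_nonneg (le_max_right _ _)
  have h5 := lN_nn w
  have h7 := Pool.Agent.Y733.FF.aw_nonneg w E
  by_cases hs : SemiAt w E
  · rw [h3 hs]
    push_cast
    rw [zero_mul]
    positivity
  · rw [aw_of_not hs h6]
    have h8 : (discExp w E : ℝ) ≤ 6 + muA a c := by exact_mod_cast h1
    have h9 := mul_le_mul_of_nonneg_right h8 h5
    linarith

end

open Classical in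
/-- the contribution of the bad places to the minimal discriminant at `w` -/
noncomputable def tw {K M : Type} [Field K] [Field M] [NumberField M] [Algebra K M] (A B : K[X])
    (x : M) (w : HeightOneSpectrum (𝓞 M)) : ℝ :=
  lN w * ((∑ P ∈ badPl A B,
    (if w.valuation M x ≤ 1 ∧ w.valuation M (aeval x P) = WithZero.exp (-1 : ℤ) then
        (mu A B P : ℝ) else
      if w.valuation M x ≤ 1 ∧ w.valuation M (aeval x P) < 1 then 10 else 0)) +
    (if InfBad A B then
      (if w.valuation M x = WithZero.exp (1 : ℤ) then (muInf A B : ℝ) else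
        if 1 < w.valuation M x then 10 else 0) else 0))

open Classical in
theorem tw_nonneg {K M : Type} [Field K] [Field M] [NumberField M] [Algebra K M] (A B : K[X])
    (x : M) (w : HeightOneSpectrum (𝓞 M)) : 0 ≤ tw A B x w := by
  unfold tw
  refine mul_nonneg (lN_nn w) (add_nonneg (Finset.sum_nonneg fun P _ => ?_) ?_)
  · split_ifs
    · exact Nat.cast_nonneg _
    · norm_num
    · exact le_rfl
  · split_ifs
    · exact Nat.cast_nonneg _
    · norm_num
    · exact le_rfl
    · exact le_rfl

open Classical in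
/-- the term of a place `P` -/
theorem le_tw {K M : Type} [Field K] [Field M] [NumberField M] [Algebra K M] (A B P : K[X])
    (hP : P ∈ badPl A B) (x : M) (w : HeightOneSpectrum (𝓞 M)) :
    lN w * (if w.valuation M x ≤ 1 ∧ w.valuation M (aeval x P) = WithZero.exp (-1 : ℤ) then
        (mu A B P : ℝ) else
      if w.valuation M x ≤ 1 ∧ w.valuation M (aeval x P) < 1 then 10 else 0) ≤ tw A B x w := by
  unfold tw
  refine mul_le_mul_of_nonneg_left ?_ (lN_nn w)
  have h1 := Finset.single_le_sum (f := fun P : K[X] =>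
    (if w.valuation M x ≤ 1 ∧ w.valuation M (aeval x P) = WithZero.exp (-1 : ℤ) then
        (mu A B P : ℝ) else
      if w.valuation M x ≤ 1 ∧ w.valuation M (aeval x P) < 1 then 10 else 0))
    (s := badPl A B) (fun P _ => by
      split_ifs
      · exact Nat.cast_nonneg _
      · norm_num
      · exact le_rfl) hP
  refine h1.trans (le_add_of_nonneg_right ?_)
  split_ifs
  · exact Nat.cast_nonneg _
  · norm_num
  · exact le_rfl
  · exact le_rfl

open Classical in
/-- the term of infinity -/
theorem le_tw_inf {K M : Type} [Field K] [Field M] [NumberField M] [Algebra K M] (A B : K[X])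
    (hI : InfBad A B) (x : M) (w : HeightOneSpectrum (𝓞 M)) :
    lN w * (if w.valuation M x = WithZero.exp (1 : ℤ) then (muInf A B : ℝ) else
        if 1 < w.valuation M x then 10 else 0) ≤ tw A B x w := by
  unfold tw
  refine mul_le_mul_of_nonneg_left ?_ (lN_nn w)
  rw [if_pos hI]
  refine le_add_of_nonneg_left (Finset.sum_nonneg fun P _ => ?_)
  split_ifs
  · exact Nat.cast_nonneg _
  · norm_num
  · exact le_rfl

section

variable {K : Type} [Field K] [NumberField K]

theorem deg_C_le (A B : K[X]) : (A - 1728 * B).natDegree ≤ max A.natDegree B.natDegree := by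
  refine (natDegree_sub_le _ _).trans (max_le_max le_rfl ?_)
  have : (1728 : K[X]) = C 1728 := (map_ofNat C 1728).symm
  rw [this]
  exact natDegree_C_mul_le _ _

/-- **the local inequality** -/
theorem loc_w (A B : K[X]) (hcop : IsCoprime A B) (hA : A ≠ 0) (hB : B ≠ 0)
    (hC : A - 1728 * B ≠ 0) : ∃ n : ℕ, n ≠ 0 ∧
    ∀ (M : Type) [Field M] [NumberField M] [Algebra K M] (w : HeightOneSpectrum (𝓞 M)) (x : M),
      (n : 𝓞 M) ∉ w.asIdeal → aeval x A ≠ 0 → aeval x B ≠ 0 → aeval x (A - 1728 * B) ≠ 0 →
      ∀ E : WeierstrassCurve M, E.Δ ≠ 0 → E.c₄ ^ 3 / E.Δ = aeval x A / aeval x B →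
        (discExp w E : ℝ) * lN w ≤ Real.log (max (fv w (E.c₄ ^ 3 / E.Δ)) 1) + 6 * aw w E +
          tw A B x w := by
  classical
  obtain ⟨Q, hQd⟩ : ∃ Q : K[X], Q = A * (A - 1728 * B) * B := ⟨_, rfl⟩
  have hQ : Q ≠ 0 := by rw [hQd]; exact mul_ne_zero (mul_ne_zero hA hC) hB
  obtain ⟨s, hs⟩ : ∃ s : Multiset K[X], s = UniqueFactorizationMonoid.normalizedFactors Q :=
    ⟨_, rfl⟩
  have hirr : ∀ P ∈ s, Irreducible P := fun P hP => by
    rw [hs] at hP
    exact UniqueFactorizationMonoid.irreducible_of_normalized_factor P hP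
  -- good primes for the valuations of `A`, `B`, `A - 1728 B` near to `P`
  have hg : ∀ P : K[X], ∃ n : ℕ, n ≠ 0 ∧ (P ∈ s →
    ∀ (M : Type) [Field M] [NumberField M] [Algebra K M] (w : HeightOneSpectrum (𝓞 M)) (x : M),
      (n : 𝓞 M) ∉ w.asIdeal → w.valuation M x ≤ 1 → w.valuation M (aeval x P) < 1 →
      w.valuation M (aeval x A) = w.valuation M (aeval x P) ^ multiplicity P A ∧
      w.valuation M (aeval x B) = w.valuation M (aeval x P) ^ multiplicity P B ∧
      w.valuation M (aeval x (A - 1728 * B)) =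
        w.valuation M (aeval x P) ^ multiplicity P (A - 1728 * B)) := by
    intro P
    by_cases hP : P ∈ s
    · obtain ⟨n1, hn1, h1⟩ := gen_val P A (hirr P hP) hA
      obtain ⟨n2, hn2, h2⟩ := gen_val P B (hirr P hP) hB
      obtain ⟨n3, hn3, h3⟩ := gen_val P (A - 1728 * B) (hirr P hP) hC
      refine ⟨n1 * n2 * n3, mul_ne_zero (mul_ne_zero hn1 hn2) hn3, fun _ => ?_⟩
      intro M _ _ _ w x hw hx hv
      refine ⟨h1 M w x (fun h => hw ?_) hx hv, h2 M w x (fun h => hw ?_) hx hv,
        h3 M w x (fun h => hw ?_) hx hv⟩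
      · push_cast
        exact Ideal.mul_mem_right _ _ (Ideal.mul_mem_right _ _ h)
      · push_cast
        exact Ideal.mul_mem_right _ _ (Ideal.mul_mem_left _ _ h)
      · push_cast
        exact Ideal.mul_mem_left _ _ h
    · exact ⟨1, one_ne_zero, fun h => absurd h hP⟩
  choose nP hnP hvP using hg
  obtain ⟨n0, hn0, hfar⟩ := far_val Q hQ
  obtain ⟨nA, hnA, hiA⟩ := int_val A
  obtain ⟨nB, hnB, hiB⟩ := int_val B
  obtain ⟨nC, hnC, hiC⟩ := int_val (A - 1728 * B)
  obtain ⟨mA, hmA, hfA⟩ := inf_val A hA
  obtain ⟨mB, hmB, hfB⟩ := inf_val B hB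
  obtain ⟨mC, hmC, hfC⟩ := inf_val (A - 1728 * B) hC
  obtain ⟨Z, hZ⟩ : ∃ Z : Finset ℕ, Z = {6, n0, nA, nB, nC, mA, mB, mC} ∪ s.toFinset.image nP :=
    ⟨_, rfl⟩
  refine ⟨∏ z ∈ Z, z, Finset.prod_ne_zero_iff.2 ?_, ?_⟩
  · intro z hz
    rw [hZ] at hz
    simp only [Finset.mem_union, Finset.mem_insert, Finset.mem_singleton, Finset.mem_image] at hz
    rcases hz with (rfl | rfl | rfl | rfl | rfl | rfl | rfl | rfl) | ⟨P, _, rfl⟩
    · norm_num
    · exact hn0
    · exact hnA
    · exact hnB
    · exact hnC
    · exact hmA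
    · exact hmB
    · exact hmC
    · exact hnP P
  intro M _ _ _ w x hw hAx hBx hCx E hE hj
  have hz : ∀ z ∈ Z, (z : 𝓞 M) ∉ w.asIdeal := by
    intro z hz h
    apply hw
    obtain ⟨t, ht⟩ := Finset.dvd_prod_of_mem (fun z => z) hz
    have ht' : ∏ z ∈ Z, z = z * t := ht
    rw [ht', Nat.cast_mul]
    exact Ideal.mul_mem_right _ _ h
  have h6 : w.valuation M 6 = 1 := by
    have h1 := hz 6 (by rw [hZ]; simp)
    have h2 : w.valuation M (algebraMap (𝓞 M) M ((6 : ℕ) : 𝓞 M)) = 1 :=
      (HeightOneSpectrum.valuation_eq_one_iff_notMem w).2 h1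
    rw [map_natCast] at h2
    exact_mod_cast h2
  have hz0 := hz n0 (by rw [hZ]; simp)
  have hzA := hz nA (by rw [hZ]; simp)
  have hzB := hz nB (by rw [hZ]; simp)
  have hzC := hz nC (by rw [hZ]; simp)
  have hyA := hz mA (by rw [hZ]; simp)
  have hyB := hz mB (by rw [hZ]; simp)
  have hyC := hz mC (by rw [hZ]; simp)
  have hj2 : E.c₄ ^ 3 / E.Δ - 1728 = aeval x (A - 1728 * B) / aeval x B := by
    rw [hj, map_sub, map_mul, map_ofNat]
    field_simp
  have hT := tw_nonneg A B x w
  have hl := lN_nn w
  have hcomm : ∀ P : K[X], Irreducible P → P ∣ B → ¬ P ∣ A ∧ ¬ P ∣ A - 1728 * B := by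
    intro P hP hPB
    refine ⟨fun h => hP.not_isUnit (hcop.isUnit_of_dvd' h hPB), fun h => ?_⟩
    refine hP.not_isUnit (hcop.isUnit_of_dvd' ?_ hPB)
    have := dvd_add h (Dvd.dvd.mul_left hPB 1728)
    simpa using this
  by_cases hx : w.valuation M x ≤ 1
  · by_cases hnear : ∃ P ∈ s, w.valuation M (aeval x P) < 1
    · obtain ⟨P, hP, hlt⟩ := hnear
      have hzP := hz (nP P) (by
        rw [hZ]
        exact Finset.mem_union_right _ (Finset.mem_image_of_mem _ (Multiset.mem_toFinset.2 hP)))
      obtain ⟨vA, vB, vC⟩ := hvP P hP M w x hzP hx hlt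
      have hPx : aeval x P ≠ 0 := by
        intro h0
        have h1 : P ∣ Q := by
          rw [hs] at hP
          exact UniqueFactorizationMonoid.dvd_of_mem_normalizedFactors hP
        obtain ⟨R, hR⟩ := h1
        have h2 : aeval x Q = 0 := by rw [hR, map_mul, h0, zero_mul]
        rw [hQd, map_mul, map_mul] at h2
        exact mul_ne_zero (mul_ne_zero hAx hCx) hBx h2
      obtain ⟨k, hk⟩ := Pool.Agent.Y733.FF.val_exp w hPx hlt.le
      have hk1 : 1 ≤ k := by
        rw [hk, ← WithZero.exp_zero, WithZero.exp_lt_exp] at hlt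
        omega
      rw [hk, ← WithZero.exp_nsmul] at vA vB vC
      simp only [nsmul_eq_mul] at vA vB vC
      by_cases hPB : P ∣ B
      · obtain ⟨g1, g2⟩ := hcomm P (hirr P hP) hPB
        have e1 : multiplicity P A = 0 := multiplicity_eq_zero.2 g1
        have e2 : 0 < multiplicity P B := by
          rw [Nat.pos_iff_ne_zero]
          intro h0
          exact (multiplicity_eq_zero.1 h0) hPB
        have h1 : 1 < w.valuation M (E.c₄ ^ 3 / E.Δ) := by
          rw [hj, map_div₀, vA, vB, e1, ← WithZero.exp_sub, ← WithZero.exp_zero,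
            WithZero.exp_lt_exp]
          have : (0 : ℤ) < (multiplicity P B : ℤ) * k := by positivity
          push_cast
          linarith
        have h2 := key_pole w E hE h6 h1
        linarith
      · have e1 : multiplicity P B = 0 := multiplicity_eq_zero.2 hPB
        have ha : w.valuation M (E.c₄ ^ 3 / E.Δ) =
            WithZero.exp (-((k * multiplicity P A : ℕ) : ℤ)) := by
          rw [hj, map_div₀, vA, vB, e1, ← WithZero.exp_sub]
          congr 1
          push_cast
          ring
        have hc : w.valuation M (E.c₄ ^ 3 / E.Δ - 1728) =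
            WithZero.exp (-((k * multiplicity P (A - 1728 * B) : ℕ) : ℤ)) := by
          rw [hj2, map_div₀, vC, vB, e1, ← WithZero.exp_sub]
          congr 1
          push_cast
          ring
        have h2 := key_int w E hE h6 ha hc
        have h3 : lN w * (muA (k * multiplicity P A) (k * multiplicity P (A - 1728 * B)) : ℝ) ≤
            tw A B x w := by
          by_cases hbad : P ∈ badPl A B
          · refine le_trans (mul_le_mul_of_nonneg_left ?_ hl) (le_tw A B P hbad x w)
            by_cases hk2 : k = 1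
            · subst hk2
              rw [if_pos ⟨hx, by rw [hk]; norm_num⟩]
              unfold mu
              rw [if_neg hPB, one_mul, one_mul]
            · rw [if_neg, if_pos ⟨hx, hlt⟩]
              · have := muA_le (k * multiplicity P A) (k * multiplicity P (A - 1728 * B))
                have h4 : (muA (k * multiplicity P A) (k * multiplicity P (A - 1728 * B)) : ℝ) ≤
                    4 := by exact_mod_cast this
                linarith
              · rintro ⟨_, h5⟩
                rw [hk, WithZero.exp_inj] at h5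
                omega
          · have h4 : 3 ∣ multiplicity P A ∧ 2 ∣ multiplicity P (A - 1728 * B) := by
              by_contra hcon
              apply hbad
              unfold badPl
              rw [Finset.mem_filter, Multiset.mem_toFinset]
              refine ⟨by rw [← hQd, ← hs]; exact hP, Or.inr ?_⟩
              tauto
            have h5 : muA (k * multiplicity P A) (k * multiplicity P (A - 1728 * B)) = 0 := by
              have h6 : 3 ∣ k * multiplicity P A := Dvd.dvd.mul_left h4.1 k
              have h7 : 2 ∣ k * multiplicity P (A - 1728 * B) := Dvd.dvd.mul_left h4.2 k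
              unfold muA
              rw [if_neg (by omega), if_neg (by omega), if_neg (by omega)]
            rw [h5]
            push_cast
            linarith
        linarith
    · push Not at hnear
      have vQ := hfar M w x hz0 hx (fun P hP => not_lt.2 (hnear P (by rw [hs]; exact hP)))
      have iA := hiA M w x hzA hx
      have iB := hiB M w x hzB hx
      have iC := hiC M w x hzC hx
      rw [hQd, map_mul, map_mul, map_mul, map_mul] at vQ
      have vA : w.valuation M (aeval x A) = 1 := by
        refine le_antisymm iA ?_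
        by_contra hc
        rw [not_le] at hc
        refine absurd vQ (lt_of_le_of_lt ?_ hc).ne
        exact (mul_le_of_le_one_right' iB).trans (mul_le_of_le_one_right' iC)
      have vB : w.valuation M (aeval x B) = 1 := by
        refine le_antisymm iB ?_
        by_contra hc
        rw [not_le] at hc
        refine absurd vQ (lt_of_le_of_lt ?_ hc).ne
        exact mul_le_of_le_one_left' (mul_le_one' iA iC)
      have vC : w.valuation M (aeval x (A - 1728 * B)) = 1 := by
        refine le_antisymm iC ?_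
        by_contra hc
        rw [not_le] at hc
        refine absurd vQ (lt_of_le_of_lt ?_ hc).ne
        exact (mul_le_of_le_one_right' iB).trans (mul_le_of_le_one_left' iA)
      have ha : w.valuation M (E.c₄ ^ 3 / E.Δ) = WithZero.exp (-((0 : ℕ) : ℤ)) := by
        rw [hj, map_div₀, vA, vB, div_one]
        simp
      have hc : w.valuation M (E.c₄ ^ 3 / E.Δ - 1728) = WithZero.exp (-((0 : ℕ) : ℤ)) := by
        rw [hj2, map_div₀, vC, vB, div_one]
        simp
      have h2 := key_int w E hE h6 ha hc
      have h3 : muA 0 0 = 0 := rfl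
      rw [h3] at h2
      push_cast at h2
      linarith
  · rw [not_le] at hx
    have vA := hfA M w x hyA hx
    have vB := hfB M w x hyB hx
    have vC := hfC M w x hyC hx
    have hx0 : w.valuation M x ≠ 0 := (lt_trans zero_lt_one hx).ne'
    obtain ⟨k', hk'⟩ : ∃ k' : ℤ, w.valuation M x = WithZero.exp k' :=
      ⟨WithZero.log (w.valuation M x), (WithZero.exp_log hx0).symm⟩
    have hk'1 : 0 < k' := by
      rw [hk', ← WithZero.exp_zero, WithZero.exp_lt_exp] at hx
      exact hx
    obtain ⟨k, rfl⟩ : ∃ k : ℕ, k' = k := ⟨k'.toNat, by omega⟩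
    have hk1 : 1 ≤ k := by omega
    rw [hk', ← WithZero.exp_nsmul] at vA vB vC
    simp only [nsmul_eq_mul] at vA vB vC
    by_cases hdeg : B.natDegree < A.natDegree
    · have h1 : 1 < w.valuation M (E.c₄ ^ 3 / E.Δ) := by
        rw [hj, map_div₀, vA, vB, ← WithZero.exp_sub, ← WithZero.exp_zero, WithZero.exp_lt_exp]
        have h2 : (B.natDegree : ℤ) < A.natDegree := by exact_mod_cast hdeg
        nlinarith
      have h2 := key_pole w E hE h6 h1
      linarith
    · have hCd := deg_C_le A B
      rw [max_eq_right (not_lt.1 hdeg)] at hCd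
      obtain ⟨a, had⟩ : ∃ a : ℕ, a = B.natDegree - A.natDegree := ⟨_, rfl⟩
      obtain ⟨c, hcd⟩ : ∃ c : ℕ, c = B.natDegree - (A - 1728 * B).natDegree := ⟨_, rfl⟩
      have ha1 : (A.natDegree : ℤ) = B.natDegree - a := by omega
      have hc1 : ((A - 1728 * B).natDegree : ℤ) = B.natDegree - c := by omega
      have ha : w.valuation M (E.c₄ ^ 3 / E.Δ) = WithZero.exp (-((k * a : ℕ) : ℤ)) := by
        rw [hj, map_div₀, vA, vB, ← WithZero.exp_sub, ha1]
        congr 1
        push_cast
        ring
      have hc : w.valuation M (E.c₄ ^ 3 / E.Δ - 1728) = WithZero.exp (-((k * c : ℕ) : ℤ)) := by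
        rw [hj2, map_div₀, vC, vB, ← WithZero.exp_sub, hc1]
        congr 1
        push_cast
        ring
      have h2 := key_int w E hE h6 ha hc
      have h3 : lN w * (muA (k * a) (k * c) : ℝ) ≤ tw A B x w := by
        by_cases hI : InfBad A B
        · refine le_trans (mul_le_mul_of_nonneg_left ?_ hl) (le_tw_inf A B hI x w)
          by_cases hk2 : k = 1
          · subst hk2
            rw [if_pos (by rw [hk']; norm_num)]
            unfold muInf
            rw [if_neg hdeg, ← had, ← hcd, one_mul, one_mul]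
          · rw [if_neg, if_pos hx]
            · have := muA_le (k * a) (k * c)
              have h4 : (muA (k * a) (k * c) : ℝ) ≤ 4 := by exact_mod_cast this
              linarith
            · intro h5
              rw [hk', WithZero.exp_inj] at h5
              omega
        · unfold InfBad at hI
          rw [← had, ← hcd] at hI
          push Not at hI
          obtain ⟨-, h4, h5⟩ := hI
          have h6 : muA (k * a) (k * c) = 0 := by
            have h6 : 3 ∣ k * a := Dvd.dvd.mul_left h4 k
            have h7 : 2 ∣ k * c := Dvd.dvd.mul_left h5 k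
            unfold muA
            rw [if_neg (by omega), if_neg (by omega), if_neg (by omega)]
          rw [h6]
          push_cast
          linarith
      linarith

end

end Pool.Agent.N751.FR
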