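import Mathlib
import Pool.Agent.N751.FR.LocW
import Pool.Agent.N751.FR.Asm1
import Pool.Agent.N271.FR.One
import Pool.Agent.N401.FR.Rh3

/-!
# Project FR: the second theorem (unstable heights, all twists)
-/

set_option autoImplicit false
set_option linter.unusedSectionVars false

namespace Pool.Agent.N751.FR

open NumberField IsDedekindDomain Module Polynomial Pool.Agent.N753.DR
open Pool.Agent.TH876.FH (GoodAt IsPeriod arch Hj_height)
open Pool.Agent.Y733.FF (discExp SemiAt aw mw disc_bound discSum multN addN log_multN log_addN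
  supp_disc supp_mw supp_aw sum_add sum_mul arch_le bad_fin semi_of_good)
open Pool.Agent.Y733.LS (supp_add supp_mul Fs_ht Fs_log fin_nat ht_eq_Sa)
open Pool.Agent.H691R3 (fv Nv)

/-- the zeros of order one of `1 / x` -/
theorem inf_one (K : Type) [Field K] [NumberField K] (r : ℕ) (hr : 1 ≤ r) (E : Set K[X])
    (hE : IsExc2 K r E) (S : Finset ℕ) (κ : ℝ) (hκ : 0 < κ) : ∃ C : ℝ,
    ∀ (M : Type) [Field M] [NumberField M] [Algebra K M] (x : M),
    finrank K M = r → (minpoly K x).natDegree = r → minpoly K x ∉ E →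
    ∃ W₁ W₂ : Finset (HeightOneSpectrum (𝓞 M)), (∀ w, w ∈ W₁ ↔ SimInf S x w) ∧
      (∀ w, w ∈ W₂ ↔ (∀ p ∈ S, p ≠ 0 → (p : 𝓞 M) ∉ w.asIdeal) ∧ 1 < w.valuation M x ∧
        w.valuation M x ≠ WithZero.exp (1 : ℤ)) ∧
      ∑ w ∈ W₁, lN w ≤ Height.logHeight₁ x + C ∧
      ∑ w ∈ W₂, lN w ≤ κ * Height.logHeight₁ x + C := by
  classical
  obtain ⟨hE1, E₀, hE0, hE2⟩ := hE
  obtain ⟨C, hC⟩ := Pool.Agent.N271.FROne.t K r hr E₀ hE0 X monic_X irreducible_X
    (by rw [natDegree_X]; omega) S κ hκ
  refine ⟨|C|, ?_⟩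
  intro M _ _ _ x hM hx hxE
  have hh : 0 ≤ Height.logHeight₁ x := Height.zero_le_logHeight₁ x
  rcases eq_or_ne x 0 with rfl | hx0
  · refine ⟨∅, ∅, fun w => ?_, fun w => ?_, ?_, ?_⟩
    · simp only [Finset.notMem_empty, false_iff]
      rintro ⟨-, h⟩
      rw [map_zero] at h
      exact WithZero.exp_ne_zero h.symm
    · simp only [Finset.notMem_empty, false_iff]
      rintro ⟨-, h, -⟩
      rw [map_zero] at h
      exact absurd h (by simp)
    · rw [Finset.sum_empty]
      positivity
    · rw [Finset.sum_empty]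
      positivity
  · obtain ⟨h3, h4⟩ := hE2 M x hM hx hxE hx0
    obtain ⟨W₁, W₂, h5, h6, -, h8, h9⟩ := hC M x⁻¹ hM h4 h3 (by
      rw [aeval_X]
      exact inv_ne_zero hx0)
    rw [Height.logHeight₁_inv, natDegree_X] at h8
    rw [Height.logHeight₁_inv] at h9
    have ha := le_abs_self C
    have e1 : ∀ w : HeightOneSpectrum (𝓞 M), w.valuation M x⁻¹ = WithZero.exp (-1 : ℤ) ↔
        w.valuation M x = WithZero.exp (1 : ℤ) := by
      intro w
      rw [map_inv₀, inv_eq_iff_eq_inv, ← WithZero.exp_neg]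
      norm_num
    have e2 : ∀ w : HeightOneSpectrum (𝓞 M), w.valuation M x⁻¹ < 1 ↔ 1 < w.valuation M x := by
      intro w
      rw [map_inv₀]
      exact inv_lt_one₀ (zero_lt_iff.2 ((Valuation.ne_zero_iff _).2 hx0))
    have e3 : (WithZero.exp (1 : ℤ) : WithZero (Multiplicative ℤ)) > 1 := by
      rw [← WithZero.exp_zero]
      exact WithZero.exp_lt_exp.2 (by norm_num)
    refine ⟨W₁, W₂, fun w => ?_, fun w => ?_, by push_cast at h8; linarith, by linarith⟩
    · rw [h5]
      unfold Simple SimInf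
      rw [aeval_X, e1]
      constructor
      · rintro ⟨g1, -, g3⟩
        exact ⟨g1, g3⟩
      · rintro ⟨g1, g3⟩
        refine ⟨g1, ?_, g3⟩
        refine le_of_lt ((e2 w).2 ?_)
        rw [g3]
        exact e3
    · rw [h6]
      unfold Simple Near
      rw [aeval_X, e1, e2]
      constructor
      · rintro ⟨⟨g1, g2, g3⟩, g4⟩
        exact ⟨g1, g3, fun h => g4 ⟨g1, g2, h⟩⟩
      · rintro ⟨g1, g2, g3⟩
        exact ⟨⟨g1, ((e2 w).2 g2).le, g2⟩, fun h => g3 h.2.2⟩

section

variable {M : Type} [Field M] [NumberField M]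

/-- sums of indicator functions -/
theorem sum_ind (W V : Finset (HeightOneSpectrum (𝓞 M))) (hWV : W ⊆ V)
    [DecidableEq (HeightOneSpectrum (𝓞 M))] :
    ∑ w ∈ V, (if w ∈ W then lN w else 0) = ∑ w ∈ W, lN w := by
  rw [Finset.sum_ite_mem, Finset.inter_eq_right.2 hWV]

open Classical in
/-- the sum of the minimal discriminants -/
theorem disc_sum (E : WeierstrassCurve M) (hE : E.Δ ≠ 0) (n : ℕ) (hn : n ≠ 0)
    (G : HeightOneSpectrum (𝓞 M) → ℝ) (hG : (Function.support G).Finite)
    (h1 : ∀ w, (n : 𝓞 M) ∉ w.asIdeal → (discExp w E : ℝ) * lN w ≤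
      Real.log (max (fv w (E.c₄ ^ 3 / E.Δ)) 1) + 6 * aw w E + G w) (hG0 : ∀ w, 0 ≤ G w) :
    discSum E ≤ ∑ᶠ v : HeightOneSpectrum (𝓞 M), Real.log (max (fv v (E.c₄ ^ 3 / E.Δ)) 1) +
      3 * Real.log (addN E) + ∑ᶠ w, G w +
      (10 * (finrank ℚ M * Real.log n) + 12 * (finrank ℚ M * Real.log 6)) := by
  have s1 := supp_disc E hE
  have s3 : (Function.support fun v : HeightOneSpectrum (𝓞 M) =>
    Real.log (max (fv v (E.c₄ ^ 3 / E.Δ)) 1)).Finite := Fs_ht (E.c₄ ^ 3 / E.Δ)
  have s5 := supp_aw E hE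
  have s6 : (Function.support fun v : HeightOneSpectrum (𝓞 M) => Real.log (fv v (6 : M))).Finite :=
    Fs_log (K := M) (z := (6 : M)) (by norm_num)
  have s7 : (Function.support fun v : HeightOneSpectrum (𝓞 M) => Real.log (fv v (n : M))).Finite :=
    Fs_log (K := M) (z := (n : M)) (Nat.cast_ne_zero.2 hn)
  have s5' := supp_mul 6 s5
  have s6' := supp_mul (-12) s6
  have s7' := supp_mul (-10) s7
  have t1 := supp_add s3 s5'
  have t2 := supp_add t1 hG
  have t3 := supp_add t2 s7'
  have t4 := supp_add t3 s6'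
  have key : ∑ᶠ v : HeightOneSpectrum (𝓞 M), ((discExp v E : ℝ) * Real.log (Nv v)) ≤
      ∑ᶠ v : HeightOneSpectrum (𝓞 M), (Real.log (max (fv v (E.c₄ ^ 3 / E.Δ)) 1) + 6 * aw v E +
        G v + -10 * Real.log (fv v (n : M)) + -12 * Real.log (fv v (6 : M))) := by
    refine finsum_le_finsum' s1 t4 fun v => ?_
    have a1 : Real.log (fv v (n : M)) ≤ 0 := by
      refine Real.log_nonpos ((fv v).nonneg _) ?_
      have := Pool.Agent.Y733.FF.fv_le_one_iff (K := M) v (x := (n : M))
      rw [this]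
      have h := v.valuation_le_one (K := M) (n : 𝓞 M)
      have h2 : v.valuation M (algebraMap (𝓞 M) M (n : 𝓞 M)) ≤ 1 := h
      rwa [map_natCast] at h2
    have a2 : Real.log (fv v (6 : M)) ≤ 0 := by
      have := (Pool.Agent.Y733.FF.log_six v).1
      linarith
    have a3 := Pool.Agent.Y733.FF.aw_nonneg v E
    have a4 := hG0 v
    by_cases hv : (n : 𝓞 M) ∈ v.asIdeal
    · have b1 := (disc_bound v E hE).1
      have b2 : Real.log (Nv v) ≤ -Real.log (fv v (n : M)) := by
        have hn0 : (n : M) ≠ 0 := Nat.cast_ne_zero.2 hn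
        have hle : v.valuation M (n : M) ≤ 1 := by
          have h2 : v.valuation M (algebraMap (𝓞 M) M (n : 𝓞 M)) ≤ 1 := v.valuation_le_one _
          rwa [map_natCast] at h2
        obtain ⟨m, hm⟩ := Pool.Agent.Y733.FF.val_exp v hn0 hle
        have hm1 : 1 ≤ m := by
          by_contra hc
          have hm0 : m = 0 := by omega
          have h3 : v.valuation M (algebraMap (𝓞 M) M (n : 𝓞 M)) = 1 := by
            rw [map_natCast, hm, hm0]
            simp
          exact ((HeightOneSpectrum.valuation_eq_one_iff_notMem v).1 h3) hv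
        rw [Pool.Agent.Y733.FF.fv_exp v hm]
        have h4 := lN_nn v
        have h5 : Real.log (Nv v) = lN v := rfl
        have h6 : (1 : ℝ) ≤ m := by exact_mod_cast hm1
        rw [h5]
        nlinarith
      have b3 : (discExp v E : ℝ) * Real.log (Nv v) ≤
        Real.log (max (fv v (E.c₄ ^ 3 / E.Δ)) 1) + 10 * Real.log (Nv v) +
          12 * (-Real.log (fv v 6)) := b1
      linarith
    · have b1 := h1 v hv
      have b2 : (discExp v E : ℝ) * Real.log (Nv v) ≤
        Real.log (max (fv v (E.c₄ ^ 3 / E.Δ)) 1) + 6 * aw v E + G v := b1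
      linarith
  rw [sum_add t3 s6', sum_add t2 s7', sum_add t1 hG, sum_add s3 s5', sum_mul _ s5, sum_mul _ s6,
    sum_mul _ s7] at key
  have h6 := fin_nat (K := M) (n := 6) (by norm_num)
  have h7 := fin_nat (K := M) (n := n) hn
  push_cast at h6
  rw [h6, h7] at key
  rw [log_addN E hE]
  have e1 : discSum E = ∑ᶠ v : HeightOneSpectrum (𝓞 M), (discExp v E : ℝ) * Real.log (Nv v) := rfl
  rw [e1]
  linarith

open Classical in
/-- the bad primes not above six -/
theorem bad_six (E : WeierstrassCurve M) (hE : E.Δ ≠ 0) :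
    ∃ W : Finset (HeightOneSpectrum (𝓞 M)),
      (∀ w, w ∈ W ↔ ¬ GoodAt w E ∧ w.valuation M 6 = 1) ∧
      ∑ w ∈ W, lN w ≤ Real.log (multN E) + Real.log (addN E) / 2 := by
  refine ⟨(bad_fin E hE).toFinset.filter fun w => w.valuation M 6 = 1, fun w => ?_, ?_⟩
  · rw [Finset.mem_filter, Set.Finite.mem_toFinset]
    rfl
  · rw [log_multN E hE, log_addN E hE]
    have h1 : ∑ w ∈ (bad_fin E hE).toFinset.filter (fun w => w.valuation M 6 = 1), lN w ≤
        ∑ᶠ w : HeightOneSpectrum (𝓞 M), (mw w E + aw w E) := by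
      have h2 := supp_add (supp_mw E hE) (supp_aw E hE)
      rw [finsum_eq_sum_of_support_subset (s := h2.toFinset ∪
        (bad_fin E hE).toFinset.filter fun w => w.valuation M 6 = 1) _ (by
          intro w hw
          rw [Finset.mem_coe, Finset.mem_union, Set.Finite.mem_toFinset]
          exact Or.inl hw)]
      refine le_trans (Finset.sum_le_sum (g := fun w => mw w E + aw w E) ?_)
        (Finset.sum_le_sum_of_subset_of_nonneg Finset.subset_union_right ?_)
      · intro w hw
        rw [Finset.mem_filter, Set.Finite.mem_toFinset] at hw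
        obtain ⟨hw1, hw2⟩ := hw
        by_cases hs : SemiAt w E
        · have : mw w E = lN w := by
            unfold mw
            exact if_pos ⟨hw1, hs, hw2⟩
          have h3 := Pool.Agent.Y733.FF.aw_nonneg w E
          linarith
        · have h3 := aw_of_not hs hw2
          have h4 := Pool.Agent.Y733.FF.mw_nonneg w E
          linarith
      · intro w _ _
        exact add_nonneg (Pool.Agent.Y733.FF.mw_nonneg w E) (Pool.Agent.Y733.FF.aw_nonneg w E)
    rw [sum_add (supp_mw E hE) (supp_aw E hE)] at h1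
    linarith

end

end Pool.Agent.N751.FR
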