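import Mathlib
import Pool.Agent.N751.FR.Asm2

/-!
# Project FR: the second theorem (unstable heights, all twists), final part
-/

set_option autoImplicit false
set_option linter.unusedSectionVars false

namespace Pool.Agent.N751.FR

open NumberField IsDedekindDomain Module Polynomial Pool.Agent.N753.DR
open Pool.Agent.TH876.FH (GoodAt IsPeriod arch Hj_height)
open Pool.Agent.Y733.FF (discExp SemiAt aw mw disc_bound discSum multN addN log_multN log_addN
  supp_disc supp_mw supp_aw sum_add sum_mul arch_le bad_fin semi_of_good)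
open Pool.Agent.Y733.LS (supp_add supp_mul Fs_ht Fs_log fin_nat ht_eq_Sa)
open Pool.Agent.H691R3 (fv Nv)

section

variable {K : Type} [Field K] [NumberField K]

open Classical in
/-- the bound for the contributions of the bad places -/
theorem G_bound (A B : K[X]) {M : Type} [Field M] [NumberField M] [Algebra K M] (x : M)
    (S : Finset ℕ) (W₁ W₂ : K[X] → Finset (HeightOneSpectrum (𝓞 M)))
    (V₁ V₂ : Finset (HeightOneSpectrum (𝓞 M)))
    (h1 : ∀ P ∈ badPl A B, (∀ w, w ∈ W₁ P ↔ Simple S P x w) ∧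
      (∀ w, w ∈ W₂ P ↔ Near S P x w ∧ ¬ Simple S P x w))
    (h2 : ∀ w, w ∈ V₁ ↔ SimInf S x w)
    (h3 : ∀ w, w ∈ V₂ ↔ (∀ p ∈ S, p ≠ 0 → (p : 𝓞 M) ∉ w.asIdeal) ∧ 1 < w.valuation M x ∧
        w.valuation M x ≠ WithZero.exp (1 : ℤ)) :
    ∃ G : HeightOneSpectrum (𝓞 M) → ℝ, (Function.support G).Finite ∧ (∀ w, 0 ≤ G w) ∧
      (∀ w, (∀ p ∈ S, p ≠ 0 → (p : 𝓞 M) ∉ w.asIdeal) → tw A B x w ≤ G w) ∧
      ∑ᶠ w, G w = ∑ P ∈ badPl A B, (mu A B P * ∑ w ∈ W₁ P, lN w + 10 * ∑ w ∈ W₂ P, lN w) +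
        (muInf A B * ∑ w ∈ V₁, lN w + 10 * ∑ w ∈ V₂, lN w) := by
  set V : Finset (HeightOneSpectrum (𝓞 M)) :=
    ((badPl A B).biUnion fun P => W₁ P ∪ W₂ P) ∪ (V₁ ∪ V₂) with hV
  set G : HeightOneSpectrum (𝓞 M) → ℝ := fun w =>
    ∑ P ∈ badPl A B, ((mu A B P : ℝ) * (if w ∈ W₁ P then lN w else 0) +
      10 * (if w ∈ W₂ P then lN w else 0)) +
    ((muInf A B : ℝ) * (if w ∈ V₁ then lN w else 0) + 10 * (if w ∈ V₂ then lN w else 0)) with hG
  have hsub1 : ∀ P ∈ badPl A B, W₁ P ⊆ V := fun P hP w hw =>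
    Finset.mem_union_left _ (Finset.mem_biUnion.2 ⟨P, hP, Finset.mem_union_left _ hw⟩)
  have hsub2 : ∀ P ∈ badPl A B, W₂ P ⊆ V := fun P hP w hw =>
    Finset.mem_union_left _ (Finset.mem_biUnion.2 ⟨P, hP, Finset.mem_union_right _ hw⟩)
  have hsub3 : V₁ ⊆ V := fun w hw => Finset.mem_union_right _ (Finset.mem_union_left _ hw)
  have hsub4 : V₂ ⊆ V := fun w hw => Finset.mem_union_right _ (Finset.mem_union_right _ hw)
  have hsupp : Function.support G ⊆ V := by
    intro w hw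
    rw [Function.mem_support] at hw
    by_contra hcon
    apply hw
    rw [hG]
    have hcon' : w ∉ V := hcon
    have e1 : ∀ P ∈ badPl A B, w ∉ W₁ P ∧ w ∉ W₂ P := fun P hP =>
      ⟨fun h => hcon' (hsub1 P hP h), fun h => hcon' (hsub2 P hP h)⟩
    have e3 : w ∉ V₁ := fun h => hcon' (hsub3 h)
    have e4 : w ∉ V₂ := fun h => hcon' (hsub4 h)
    simp only [if_neg e3, if_neg e4, mul_zero, add_zero]
    refine Finset.sum_eq_zero fun P hP => ?_
    rw [if_neg (e1 P hP).1, if_neg (e1 P hP).2, mul_zero, mul_zero, add_zero]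
  have hl : ∀ w : HeightOneSpectrum (𝓞 M), 0 ≤ lN w := fun w => lN_nn w
  refine ⟨G, V.finite_toSet.subset hsupp, fun w => ?_, fun w hw => ?_, ?_⟩
  · rw [hG]
    have := hl w
    refine add_nonneg (Finset.sum_nonneg fun P _ => ?_) ?_
    · split_ifs <;> positivity
    · split_ifs <;> positivity
  · unfold tw
    rw [hG, mul_add, Finset.mul_sum]
    refine add_le_add (Finset.sum_le_sum fun P hP => ?_) ?_
    · obtain ⟨g1, g2⟩ := h1 P hP
      by_cases c1 : w.valuation M x ≤ 1 ∧ w.valuation M (aeval x P) = WithZero.exp (-1 : ℤ)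
      · have c2 : w ∈ W₁ P := (g1 w).2 ⟨hw, c1.1, c1.2⟩
        rw [if_pos c1, if_pos c2]
        have : 0 ≤ 10 * (if w ∈ W₂ P then lN w else 0) := by
          have := hl w
          split_ifs <;> positivity
        linarith
      · rw [if_neg c1]
        by_cases c3 : w.valuation M x ≤ 1 ∧ w.valuation M (aeval x P) < 1
        · have c4 : w ∈ W₂ P := (g2 w).2 ⟨⟨hw, c3.1, c3.2⟩, fun h => c1 ⟨h.2.1, h.2.2⟩⟩
          rw [if_pos c3, if_pos c4]
          have : 0 ≤ (mu A B P : ℝ) * (if w ∈ W₁ P then lN w else 0) := by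
            have := hl w
            split_ifs <;> positivity
          linarith
        · rw [if_neg c3, mul_zero]
          have := hl w
          split_ifs <;> positivity
    · by_cases hI : InfBad A B
      · rw [if_pos hI]
        by_cases c1 : w.valuation M x = WithZero.exp (1 : ℤ)
        · have c2 : w ∈ V₁ := (h2 w).2 ⟨hw, c1⟩
          rw [if_pos c1, if_pos c2]
          have : 0 ≤ 10 * (if w ∈ V₂ then lN w else 0) := by
            have := hl w
            split_ifs <;> positivity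
          linarith
        · rw [if_neg c1]
          by_cases c3 : 1 < w.valuation M x
          · have c4 : w ∈ V₂ := (h3 w).2 ⟨hw, c3, c1⟩
            rw [if_pos c3, if_pos c4]
            have : 0 ≤ (muInf A B : ℝ) * (if w ∈ V₁ then lN w else 0) := by
              have := hl w
              split_ifs <;> positivity
            linarith
          · rw [if_neg c3, mul_zero]
            have := hl w
            split_ifs <;> positivity
      · rw [if_neg hI, mul_zero]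
        have := hl w
        split_ifs <;> positivity
  · rw [finsum_eq_sum_of_support_subset _ hsupp, hG, Finset.sum_add_distrib, Finset.sum_comm]
    congr 1
    · refine Finset.sum_congr rfl fun P hP => ?_
      rw [Finset.sum_add_distrib, ← Finset.mul_sum, ← Finset.mul_sum,
        sum_ind _ _ (hsub1 P hP), sum_ind _ _ (hsub2 P hP)]
    · rw [Finset.sum_add_distrib, ← Finset.mul_sum, ← Finset.mul_sum,
        sum_ind _ _ hsub3, sum_ind _ _ hsub4]

end

theorem mu_le {K : Type} [Field K] (A B P : K[X]) : mu A B P ≤ 4 := by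
  unfold mu
  split_ifs
  · omega
  · exact muA_le _ _

theorem muInf_le {K : Type} [Field K] (A B : K[X]) : muInf A B ≤ 4 := by
  unfold muInf
  split_ifs
  · omega
  · exact muA_le _ _

/-- the arithmetic at the end -/
theorem final_arith {h L C1 w g ε κ c0 : ℝ} (hg : 1 ≤ g) (hw : 0 ≤ w) (hc0 : 0 ≤ c0)
    (hκ0 : 0 < κ) (hκ1 : κ ≤ g / 2) (hκ2 : κ * (2 * (c0 * g + w)) ≤ ε)
    (hL : 0 ≤ L) (h1 : (g - κ) * h ≤ L + C1) :
    (w + c0 * κ) * h ≤ (w / g + ε) * (L + |C1|) := by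
  have hgk : 0 < g - κ := by linarith
  have h2 : h ≤ (L + |C1|) / (g - κ) := by
    rw [le_div_iff₀ hgk, mul_comm]
    have := le_abs_self C1
    linarith
  have hLC : 0 ≤ L + |C1| := by positivity
  have h3 : (w + c0 * κ) / (g - κ) ≤ w / g + ε := by
    have e1 : (w + c0 * κ) / (g - κ) - w / g = κ * (c0 * g + w) / (g * (g - κ)) := by
      have : g ≠ 0 := by linarith
      field_simp
      ring
    have e2 : κ * (c0 * g + w) / (g * (g - κ)) ≤ ε := by
      rw [div_le_iff₀ (by positivity)]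
      have hε : 0 ≤ ε := le_trans (by positivity) hκ2
      have e3 : (1 : ℝ) / 2 ≤ g * (g - κ) := by
        calc (1 : ℝ) / 2 = 1 * (1 / 2) := by ring
          _ ≤ g * (g - κ) := mul_le_mul hg (by linarith) (by norm_num) (by linarith)
      calc κ * (c0 * g + w) = κ * (2 * (c0 * g + w)) * (1 / 2) := by ring
        _ ≤ ε * (1 / 2) := by gcongr
        _ ≤ ε * (g * (g - κ)) := by gcongr
    linarith
  calc (w + c0 * κ) * h ≤ (w + c0 * κ) * ((L + |C1|) / (g - κ)) := by gcongr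
    _ = (w + c0 * κ) / (g - κ) * (L + |C1|) := by ring
    _ ≤ _ := by gcongr

open Classical in
/-- **the second theorem** -/
theorem main2 (K : Type) [Field K] [NumberField K] (r : ℕ)
    (hr : 1 ≤ r) (E : Set K[X]) (hE : IsExc2 K r E) (A B : K[X]) (hcop : IsCoprime A B)
    (hB : B ≠ 0) (hN : 1 ≤ max A.natDegree B.natDegree)
    (hdeg : ∀ P ∈ badPl A B, P.natDegree ≤ 2 * r + 1) (ε : ℝ) (hε : 0 < ε) :
    ∃ C : ℝ, ∀ (M : Type) [Field M] [NumberField M] [Algebra K M] (x : M),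
      finrank K M = r → (minpoly K x).natDegree = r → minpoly K x ∉ E → aeval x A ≠ 0 →
      aeval x B ≠ 0 → aeval x (A - 1728 * B) ≠ 0 →
      ∀ (F : WeierstrassCurve M) (τ : InfinitePlace M → UpperHalfPlane), F.Δ ≠ 0 →
        F.c₄ ^ 3 / F.Δ = aeval x A / aeval x B → IsPeriod (F.c₄ ^ 3 / F.Δ) τ →
        discSum F + ∑ w : InfinitePlace M, (w.mult : ℝ) * arch (τ w) ≤
          ((wt A B : ℝ) / gam A B + ε) * Real.log (multN F) +
          (3 + ((wt A B : ℝ) / gam A B + ε) / 2) * Real.log (addN F) + C := by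
  have hA : A ≠ 0 := by
    rintro rfl
    have h1 : IsUnit B := isCoprime_zero_left.1 hcop
    rw [natDegree_eq_zero_of_isUnit h1] at hN
    simp at hN
  have hAB : A - 1728 * B ≠ 0 := by
    intro h
    have hA' : A = 1728 * B := by linear_combination h
    have h1 : B ∣ A := ⟨1728, by rw [hA']; ring⟩
    have h2 : IsUnit B := hcop.isUnit_of_dvd' h1 dvd_rfl
    have h3 : A.natDegree = 0 := by
      rw [hA']
      have : (1728 : K[X]) = C 1728 := (map_ofNat C 1728).symm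
      rw [this]
      have h4 := natDegree_C_mul_le (1728 : K) B
      rw [natDegree_eq_zero_of_isUnit h2] at h4
      omega
    rw [natDegree_eq_zero_of_isUnit h2, h3] at hN
    simp at hN
  have hrh := Pool.Agent.N401.FR.t K A B hcop hB hN
  obtain ⟨N, hNd⟩ : ∃ N : ℕ, N = max A.natDegree B.natDegree := ⟨_, rfl⟩
  obtain ⟨γ, hγd⟩ : ∃ γ : ℕ, γ = gam A B := ⟨_, rfl⟩
  obtain ⟨m, hmd⟩ : ∃ m : ℕ, m = wt A B := ⟨_, rfl⟩
  rw [← hγd, ← hmd] at hrh
  rw [← hγd, ← hmd]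
  have hγ0 : (1 : ℝ) ≤ γ := by
    have : 1 ≤ γ := by omega
    exact_mod_cast this
  have hPP : ∀ P ∈ badPl A B, P.Monic ∧ Irreducible P ∧ P.natDegree ≤ 2 * r + 1 := by
    intro P hP
    have h2 := hdeg P hP
    unfold badPl at hP
    rw [Finset.mem_filter, Multiset.mem_toFinset] at hP
    have h3 := UniqueFactorizationMonoid.irreducible_of_normalized_factor P hP.1
    have h4 := UniqueFactorizationMonoid.normalize_normalized_factor P hP.1
    refine ⟨?_, h3, h2⟩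
    rw [← h4]
    exact monic_normalize h3.ne_zero
  -- good primes
  obtain ⟨n0, hn0, hloc⟩ := loc_w A B hcop hA hB hAB
  choose n hnn hn using fun P : {P // P ∈ badPl A B} =>
    bad_of_simple A B P.1 hcop hB hA hAB P.2
  obtain ⟨n', hn0', hn'⟩ : ∃ n : ℕ, n ≠ 0 ∧ (InfBad A B →
    ∀ (M : Type) [Field M] [NumberField M] [Algebra K M] (w : HeightOneSpectrum (𝓞 M)) (x : M),
      (n : 𝓞 M) ∉ w.asIdeal → w.valuation M x = WithZero.exp (1 : ℤ) → aeval x B ≠ 0 →
      ∀ E : WeierstrassCurve M, E.Δ ≠ 0 → E.c₄ ^ 3 / E.Δ = aeval x A / aeval x B →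
        ¬ GoodAt w E) := by
    by_cases hI : InfBad A B
    · obtain ⟨n, hn, h⟩ := bad_of_inf A B hB hA hAB hI
      exact ⟨n, hn, fun _ => h⟩
    · exact ⟨1, one_ne_zero, fun h => absurd h hI⟩
  obtain ⟨S, hSd⟩ : ∃ S : Finset ℕ, S = {n0, 6, n'} ∪ ((badPl A B).attach.image n) := ⟨_, rfl⟩
  have hS0 : ∀ z ∈ S, z ≠ 0 := by
    intro z hz
    rw [hSd] at hz
    simp only [Finset.mem_union, Finset.mem_insert, Finset.mem_singleton, Finset.mem_image] at hz
    rcases hz with (rfl | rfl | rfl) | ⟨P, _, rfl⟩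
    · exact hn0
    · norm_num
    · exact hn0'
    · exact hnn P
  have hSn0 : n0 ∈ S := by rw [hSd]; simp
  have hS6 : 6 ∈ S := by rw [hSd]; simp
  have hSn' : n' ∈ S := by rw [hSd]; simp
  have hSn : ∀ P : {P // P ∈ badPl A B}, n P ∈ S := by
    intro P
    rw [hSd]
    exact Finset.mem_union_right _ (Finset.mem_image_of_mem n (Finset.mem_attach _ _))
  -- the constants
  obtain ⟨c0, hc0d⟩ : ∃ c0 : ℝ, c0 = 10 * ((badPl A B).card + 1) := ⟨_, rfl⟩
  have hc0 : 0 ≤ c0 := by rw [hc0d]; positivity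
  obtain ⟨κ, hκ⟩ : ∃ κ : ℝ, κ = min ((γ : ℝ) / 2) (ε / (2 * (c0 * γ + m) + 1)) := ⟨_, rfl⟩
  have hden : 0 < 2 * (c0 * γ + m) + 1 := by positivity
  have hκ0 : 0 < κ := by rw [hκ]; exact lt_min (by positivity) (by positivity)
  have hκ1 : κ ≤ (γ : ℝ) / 2 := by rw [hκ]; exact min_le_left _ _
  have hκ2 : κ * (2 * (c0 * γ + m)) ≤ ε := by
    have h1 : κ ≤ ε / (2 * (c0 * γ + m) + 1) := by rw [hκ]; exact min_le_right _ _
    rw [le_div_iff₀ hden] at h1
    nlinarith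
  obtain ⟨C1, hC1⟩ := sim_all K r hr E hE (badPl A B) hPP S κ hκ0 (InfBad A B)
  have hone : ∀ P : K[X], ∃ C : ℝ, P ∈ badPl A B → ∀ (M : Type) [Field M] [NumberField M]
      [Algebra K M] (x : M), finrank K M = r → (minpoly K x).natDegree = r →
      minpoly K x ∉ E → aeval x P ≠ 0 →
    ∃ W₁ W₂ : Finset (HeightOneSpectrum (𝓞 M)), (∀ w, w ∈ W₁ ↔ Simple S P x w) ∧
      (∀ w, w ∈ W₂ ↔ Near S P x w ∧ ¬ Simple S P x w) ∧
      (P.natDegree - κ) * Height.logHeight₁ x ≤ ∑ w ∈ W₁, lN w + C ∧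
      ∑ w ∈ W₁, lN w ≤ P.natDegree * Height.logHeight₁ x + C ∧
      ∑ w ∈ W₂, lN w ≤ κ * Height.logHeight₁ x + C := by
    intro P
    by_cases hP : P ∈ badPl A B
    · obtain ⟨p1, p2, p3⟩ := hPP P hP
      obtain ⟨C, hC⟩ := Pool.Agent.N271.FROne.t K r hr E hE.1 P p1 p2 p3 S κ hκ0
      exact ⟨C, fun _ => hC⟩
    · exact ⟨0, fun h => absurd h hP⟩
  choose CP hCP using hone
  obtain ⟨CI, hCI⟩ := inf_one K r hr E hE S κ hκ0
  obtain ⟨C2, hC2⟩ := Pool.Agent.N490.FR.Ht.t K A B hcop r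
  obtain ⟨C3, hC3, hC3'⟩ := arch_le
  obtain ⟨N0, hN0d⟩ : ∃ N0 : ℕ, N0 = ∏ z ∈ S, z := ⟨_, rfl⟩
  have hN00 : N0 ≠ 0 := by
    rw [hN0d]
    exact Finset.prod_ne_zero_iff.2 hS0
  obtain ⟨C4, hC4⟩ : ∃ C4 : ℝ, C4 = 14 * ∑ P ∈ badPl A B, |CP P| + 14 * |CI| := ⟨_, rfl⟩
  refine ⟨((m : ℝ) / γ + ε) * |C1| + |C2| + C4 + C3 * (finrank ℚ K * r) +
    (10 * ((finrank ℚ K * r) * Real.log N0) + 12 * ((finrank ℚ K * r) * Real.log 6)), ?_⟩
  intro M _ _ _ x hM hx hxE hAx hBx hCx F τ hF hj hτ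
  have hh : 0 ≤ Height.logHeight₁ x := Height.zero_le_logHeight₁ x
  have hrank : (finrank ℚ M : ℝ) = finrank ℚ K * r := by
    rw [← hM]
    exact_mod_cast (finrank_mul_finrank ℚ K M).symm
  have hPx : ∀ P ∈ badPl A B, aeval x P ≠ 0 := by
    intro P hP h0
    unfold badPl at hP
    rw [Finset.mem_filter, Multiset.mem_toFinset] at hP
    obtain ⟨R, hR⟩ := UniqueFactorizationMonoid.dvd_of_mem_normalizedFactors hP.1
    have h2 : aeval x (A * (A - 1728 * B) * B) = 0 := by rw [hR, map_mul, h0, zero_mul]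
    rw [map_mul, map_mul] at h2
    exact mul_ne_zero (mul_ne_zero hAx hCx) hBx h2
  -- the sets
  have hsets : ∀ P : K[X], ∃ W₁ W₂ : Finset (HeightOneSpectrum (𝓞 M)), P ∈ badPl A B →
      (∀ w, w ∈ W₁ ↔ Simple S P x w) ∧ (∀ w, w ∈ W₂ ↔ Near S P x w ∧ ¬ Simple S P x w) ∧
      ∑ w ∈ W₁, lN w ≤ P.natDegree * Height.logHeight₁ x + CP P ∧
      ∑ w ∈ W₂, lN w ≤ κ * Height.logHeight₁ x + CP P := by
    intro P
    by_cases hP : P ∈ badPl A B
    · obtain ⟨W₁, W₂, g1, g2, -, g4, g5⟩ := hCP P hP M x hM hx hxE (hPx P hP)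
      exact ⟨W₁, W₂, fun _ => ⟨g1, g2, g4, g5⟩⟩
    · exact ⟨∅, ∅, fun h => absurd h hP⟩
  choose W₁ W₂ hW using hsets
  obtain ⟨V₁, V₂, hV1, hV2, hV3, hV4⟩ := hCI M x hM hx hxE
  obtain ⟨G, hG1, hG2, hG3, hG4⟩ := G_bound A B x S W₁ W₂ V₁ V₂
    (fun P hP => ⟨(hW P hP).1, (hW P hP).2.1⟩) hV1 hV2
  -- the sum of the contributions
  have hGs : ∑ᶠ w, G w ≤ ((m : ℝ) - N + c0 * κ) * Height.logHeight₁ x + C4 := by
    rw [hG4]
    have g1 : ∀ P ∈ badPl A B, (mu A B P : ℝ) * ∑ w ∈ W₁ P, lN w + 10 * ∑ w ∈ W₂ P, lN w ≤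
        (mu A B P * P.natDegree : ℕ) * Height.logHeight₁ x + 10 * κ * Height.logHeight₁ x +
          14 * |CP P| := by
      intro P hP
      obtain ⟨-, -, a1, a2⟩ := hW P hP
      have a3 : (mu A B P : ℝ) ≤ 4 := by exact_mod_cast mu_le A B P
      have a4 : (0 : ℝ) ≤ mu A B P := Nat.cast_nonneg _
      have a5 := le_abs_self (CP P)
      have a6 := abs_nonneg (CP P)
      have a7 : (mu A B P : ℝ) * ∑ w ∈ W₁ P, lN w ≤
          mu A B P * (P.natDegree * Height.logHeight₁ x + |CP P|) :=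
        mul_le_mul_of_nonneg_left (by linarith) a4
      have a8 : (mu A B P : ℝ) * |CP P| ≤ 4 * |CP P| := mul_le_mul_of_nonneg_right a3 a6
      push_cast
      nlinarith
    have g0 : ∑ P ∈ badPl A B, (((mu A B P * P.natDegree : ℕ) : ℝ) * Height.logHeight₁ x +
        10 * κ * Height.logHeight₁ x + 14 * |CP P|) =
        (∑ P ∈ badPl A B, ((mu A B P * P.natDegree : ℕ) : ℝ)) * Height.logHeight₁ x +
        (badPl A B).card * (10 * κ * Height.logHeight₁ x) + 14 * ∑ P ∈ badPl A B, |CP P| := by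
      rw [Finset.sum_add_distrib, Finset.sum_add_distrib, Finset.sum_const, nsmul_eq_mul,
        Finset.sum_mul, Finset.mul_sum]
    have g2 := (Finset.sum_le_sum g1).trans_eq g0
    have g3 : (muInf A B : ℝ) * ∑ w ∈ V₁, lN w + 10 * ∑ w ∈ V₂, lN w ≤
        muInf A B * Height.logHeight₁ x + 10 * κ * Height.logHeight₁ x + 14 * |CI| := by
      have a3 : (muInf A B : ℝ) ≤ 4 := by exact_mod_cast muInf_le A B
      have a4 : (0 : ℝ) ≤ muInf A B := Nat.cast_nonneg _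
      have a5 := le_abs_self CI
      have a6 := abs_nonneg CI
      have a7 : (muInf A B : ℝ) * ∑ w ∈ V₁, lN w ≤
          muInf A B * (Height.logHeight₁ x + |CI|) :=
        mul_le_mul_of_nonneg_left (by linarith) a4
      have a8 : (muInf A B : ℝ) * |CI| ≤ 4 * |CI| := mul_le_mul_of_nonneg_right a3 a6
      nlinarith
    have g4 : (m : ℝ) = N + ((∑ P ∈ badPl A B, mu A B P * P.natDegree : ℕ) : ℝ) + muInf A B := by
      rw [hmd, hNd]
      unfold wt
      push_cast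
      ring
    have g5 : (((∑ P ∈ badPl A B, mu A B P * P.natDegree : ℕ) : ℝ)) =
        ∑ P ∈ badPl A B, ((mu A B P * P.natDegree : ℕ) : ℝ) := by
      push_cast
      rfl
    rw [g4, hc0d, hC4, g5]
    linarith
  -- the discriminant
  have hnot : ∀ w : HeightOneSpectrum (𝓞 M), (N0 : 𝓞 M) ∉ w.asIdeal →
      ∀ p ∈ S, p ≠ 0 → (p : 𝓞 M) ∉ w.asIdeal := by
    intro w hw p hp _ h
    apply hw
    obtain ⟨t, ht⟩ := Finset.dvd_prod_of_mem (fun z => z) hp
    have ht' : ∏ z ∈ S, z = p * t := ht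
    rw [hN0d, ht', Nat.cast_mul]
    exact Ideal.mul_mem_right _ _ h
  have hdisc := disc_sum F hF N0 hN00 G hG1 (by
    intro w hw
    have h1 := hloc M w x (hnot w hw n0 hSn0 hn0) hAx hBx hCx F hF hj
    have h2 := hG3 w (hnot w hw)
    linarith) hG2
  have harch := hC3' M (F.c₄ ^ 3 / F.Δ) τ hτ
  have hht := (hC2 M x hM hBx).1
  rw [← hj, ← hNd] at hht
  have hHj := Hj_height (F.c₄ ^ 3 / F.Δ)
  -- the conductor
  obtain ⟨W, hWm, hWs⟩ := bad_six F hF
  have hlow := hC1 M x hM hx hxE W (by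
    rintro w ⟨P, hP, hPS⟩
    rw [hWm]
    obtain ⟨hs1, hs2, hs3⟩ := hPS
    refine ⟨hn ⟨P, hP⟩ M w x (hs1 _ (hSn ⟨P, hP⟩) (hnn _)) hs2 hs3 hBx F hF hj, ?_⟩
    have h2 : w.valuation M (algebraMap (𝓞 M) M ((6 : ℕ) : 𝓞 M)) = 1 :=
      (HeightOneSpectrum.valuation_eq_one_iff_notMem w).2 (hs1 6 hS6 (by norm_num))
    rw [map_natCast] at h2
    exact_mod_cast h2) (by
    intro hI w hw
    rw [hWm]
    refine ⟨hn' hI M w x (hw.1 _ hSn' hn0') hw.2 hBx F hF hj, ?_⟩
    have h2 : w.valuation M (algebraMap (𝓞 M) M ((6 : ℕ) : 𝓞 M)) = 1 :=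
      (HeightOneSpectrum.valuation_eq_one_iff_notMem w).2 (hw.1 6 hS6 (by norm_num))
    rw [map_natCast] at h2
    exact_mod_cast h2)
  have hgam : (∑ P ∈ badPl A B, P.natDegree + if InfBad A B then 1 else 0 : ℕ) = γ := by
    rw [hγd]
    rfl
  rw [hgam] at hlow
  obtain ⟨L, hL⟩ : ∃ L : ℝ, L = Real.log (multN F) + Real.log (addN F) / 2 := ⟨_, rfl⟩
  have hL0 : 0 ≤ L := by
    rw [hL]
    have h1 := Pool.Agent.Y733.FF.log_multN_nonneg F hF
    have h2 : 0 ≤ Real.log (addN F) := by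
      rw [log_addN F hF]
      have := finsum_nonneg fun v => Pool.Agent.Y733.FF.aw_nonneg v F
      positivity
    positivity
  have hlow' : ((γ : ℝ) - κ) * Height.logHeight₁ x ≤ L + C1 := by
    rw [hL]
    linarith
  have hfin := final_arith (w := (m : ℝ)) (ε := ε) hγ0 (Nat.cast_nonneg _) hc0 hκ0 hκ1 hκ2 hL0 hlow'
  rw [hrank] at harch hdisc
  have hc2 := le_abs_self C2
  have e1 : ((m : ℝ) / γ + ε) * (L + |C1|) = ((m : ℝ) / γ + ε) * Real.log (multN F) +
      (((m : ℝ) / γ + ε) / 2) * Real.log (addN F) + ((m : ℝ) / γ + ε) * |C1| := by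
    rw [hL]
    ring
  have e2 : ((m : ℝ) + c0 * κ) * Height.logHeight₁ x =
      N * Height.logHeight₁ x + ((m : ℝ) - N + c0 * κ) * Height.logHeight₁ x := by ring
  have e3 : (3 + ((m : ℝ) / γ + ε) / 2) * Real.log (addN F) =
      3 * Real.log (addN F) + (((m : ℝ) / γ + ε) / 2) * Real.log (addN F) := by ring
  rw [e1] at hfin
  rw [e2] at hfin
  rw [e3]
  have e4 : ∑ᶠ v : HeightOneSpectrum (𝓞 M), Real.log (max (fv v (F.c₄ ^ 3 / F.Δ)) 1) =
    ∑ᶠ v : HeightOneSpectrum (𝓞 M), Real.log (max (FinitePlace.mk v (F.c₄ ^ 3 / F.Δ)) 1) := rfl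
  rw [e4] at hdisc
  linarith

end Pool.Agent.N751.FR
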